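import Mathlib
import Pool.Agent.H646.Tuples
import Pool.Agent.Helper256.KM.Mertens

namespace Pool.Agent.H342R2.SP
open Finset
open Pool.Agent.H646 (rat)
open Pool.Agent.H646.TuplesM (rat_ge_one rat_nonneg)

lemma rat_eq_prod (n : ℕ) (hn : 1 ≤ n) : rat n = ∏ p ∈ n.primeFactors, ((1 : ℝ) - (p : ℝ)⁻¹)⁻¹ := by
  have hn0 : (0 : ℝ) < n := by exact_mod_cast hn
  have h1 : (Nat.totient n : ℝ) = n * ∏ p ∈ n.primeFactors, (1 - (p : ℝ)⁻¹) := by
    have := Nat.totient_eq_mul_prod_factors n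
    have h2 : ((Nat.totient n : ℚ) : ℝ) = ((n * ∏ p ∈ n.primeFactors, (1 - (p : ℚ)⁻¹) : ℚ) : ℝ) := by
      rw [this]
    push_cast at h2
    exact h2
  unfold rat
  rw [h1, ← div_div, div_self hn0.ne', one_div, Finset.prod_inv_distrib]

lemma rat_le_exp (n : ℕ) (hn : 1 ≤ n) : rat n ≤ Real.exp (2 * ∑ p ∈ n.primeFactors, 1 / (p : ℝ)) := by
  rw [rat_eq_prod n hn, mul_sum, Real.exp_sum]
  apply prod_le_prod
  · intro p hp
    have h2 : (2 : ℝ) ≤ p := by exact_mod_cast (Nat.prime_of_mem_primeFactors hp).two_le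
    have : (p : ℝ)⁻¹ ≤ 2⁻¹ := inv_anti₀ (by norm_num) h2
    rw [inv_nonneg]; linarith
  · intro p hp
    have h2 : (2 : ℝ) ≤ p := by exact_mod_cast (Nat.prime_of_mem_primeFactors hp).two_le
    have hx : (p : ℝ)⁻¹ ≤ 2⁻¹ := inv_anti₀ (by norm_num) h2
    have hx0 : 0 < (p : ℝ)⁻¹ := by positivity
    have h3 := Real.add_one_le_exp (2 * (1 / (p : ℝ)))
    rw [inv_le_iff_one_le_mul₀ (by linarith)]
    rw [one_div] at *
    set x := (p : ℝ)⁻¹
    calc (1 : ℝ) ≤ (2 * x + 1) * (1 - x) := by nlinarith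
      _ ≤ Real.exp (2 * x) * (1 - x) := mul_le_mul_of_nonneg_right h3 (by linarith)

lemma omega_le (n : ℕ) (hn : 1 ≤ n) : #n.primeFactors ≤ Nat.log 2 n := by
  apply Nat.le_log_of_pow_le (by norm_num)
  calc 2 ^ #n.primeFactors ≤ ∏ p ∈ n.primeFactors, p :=
        Finset.pow_card_le_prod _ _ _ (fun p hp => (Nat.prime_of_mem_primeFactors hp).two_le)
    _ ≤ n := Nat.le_of_dvd (by omega) (Nat.prod_primeFactors_dvd n)

/-- only the small primes matter -/
theorem PB (B : ℕ) (η : ℝ) (hη : 0 < η) (hη1 : η ≤ 1) : ∃ C : ℝ, 1 ≤ C ∧ ∀ m : ℕ, 1 ≤ m →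
    rat m ^ B ≤ C * (1 + ∑ q ∈ m.primeFactors with q ≤ Nat.log 2 m, (q : ℝ) ^ (η - 1)) := by
  obtain ⟨C₁, hC₁⟩ := Pool.Agent.Helper256.KM.mertens_inv
  set ε : ℝ := η / (2 * B + 1) with hε
  have hε0 : 0 < ε := by positivity
  have hC₁0 : 0 ≤ C₁ := (abs_nonneg _).trans (hC₁ 3 le_rfl)
  set K : ℝ := Real.exp (2 * B * (C₁ + 2)) * (1 / ε) ^ (2 * B) with hK
  have hK0 : 0 < K := by positivity
  refine ⟨K * 6 + 1, by linarith, fun m hm => ?_⟩
  set L := Nat.log 2 m with hL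
  set S := m.primeFactors.filter (fun q => q ≤ L) with hS
  set T : ℝ := ∑ q ∈ S, (q : ℝ) ^ (η - 1) with hT
  have hT0 : 0 ≤ T := sum_nonneg fun q _ => by positivity
  -- large prime factors
  have h1 : ∑ p ∈ m.primeFactors, 1 / (p : ℝ) ≤ ∑ p ∈ S, 1 / (p : ℝ) + 1 := by
    rw [← sum_filter_add_sum_filter_not m.primeFactors (fun q => q ≤ L)]
    apply add_le_add le_rfl
    calc ∑ p ∈ m.primeFactors with ¬ p ≤ L, 1 / (p : ℝ)
        ≤ ∑ p ∈ m.primeFactors with ¬ p ≤ L, 1 / ((L : ℝ) + 1) := by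
          apply sum_le_sum
          intro p hp
          have h2 : L + 1 ≤ p := by
            have := (mem_filter.1 hp).2
            omega
          have h3 : (L : ℝ) + 1 ≤ p := by exact_mod_cast h2
          exact one_div_le_one_div_of_le (by positivity) h3
      _ = #(m.primeFactors.filter (fun p => ¬ p ≤ L)) * (1 / ((L : ℝ) + 1)) := by
          rw [sum_const, nsmul_eq_mul]
      _ ≤ L * (1 / ((L : ℝ) + 1)) := by
          apply mul_le_mul_of_nonneg_right _ (by positivity)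
          exact_mod_cast (card_filter_le _ _).trans (omega_le m hm)
      _ ≤ 1 := by
          rw [mul_one_div, div_le_one (by positivity)]; linarith
  -- threshold
  set Y : ℕ := ⌈T ^ (1 / η)⌉₊ + 3 with hY
  have hY3 : 3 ≤ Y := by omega
  have hYr : (3 : ℝ) ≤ Y := by exact_mod_cast hY3
  have hYT : T ^ (1 / η) ≤ Y := by
    rw [hY]; push_cast
    linarith [Nat.le_ceil (T ^ (1 / η))]
  have hYη : T ≤ (Y : ℝ) ^ η := by
    have h2 : (T ^ (1 / η)) ^ η ≤ (Y : ℝ) ^ η := Real.rpow_le_rpow (by positivity) hYT hη.le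
    rwa [← Real.rpow_mul hT0, one_div, inv_mul_cancel₀ hη.ne', Real.rpow_one] at h2
  have hYup : (Y : ℝ) ^ η ≤ T + 4 := by
    have h2 : (Y : ℝ) ≤ T ^ (1 / η) + 4 := by
      rw [hY]; push_cast
      have := Nat.ceil_lt_add_one (show 0 ≤ T ^ (1 / η) by positivity)
      linarith
    calc (Y : ℝ) ^ η ≤ (T ^ (1 / η) + 4) ^ η := Real.rpow_le_rpow (by positivity) h2 hη.le
      _ ≤ (T ^ (1 / η)) ^ η + 4 ^ η := by
          apply Real.rpow_add_le_add_rpow (by positivity) (by norm_num) hη.le hη1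
      _ ≤ T + 4 := by
          rw [← Real.rpow_mul hT0, one_div, inv_mul_cancel₀ hη.ne', Real.rpow_one]
          have : (4 : ℝ) ^ η ≤ 4 ^ (1 : ℝ) := Real.rpow_le_rpow_of_exponent_le (by norm_num) hη1
          rw [Real.rpow_one] at this
          linarith
  -- small primes of S
  have h4 : ∑ p ∈ S, 1 / (p : ℝ) ≤ Real.log (Real.log Y) + C₁ + 1 := by
    rw [← sum_filter_add_sum_filter_not S (fun q => q ≤ Y)]
    have h5 : ∑ p ∈ S with p ≤ Y, 1 / (p : ℝ) ≤ Real.log (Real.log Y) + C₁ := by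
      have h6 := (abs_le.1 (hC₁ Y hY3)).2
      have h7 : ∑ p ∈ S with p ≤ Y, 1 / (p : ℝ) ≤ ∑ p ∈ (Finset.Icc 1 Y).filter Nat.Prime, (1 : ℝ) / p := by
        apply sum_le_sum_of_subset_of_nonneg
        · intro p hp
          have h8 := mem_filter.1 hp
          have h9 := Nat.prime_of_mem_primeFactors (mem_filter.1 h8.1).1
          exact mem_filter.2 ⟨mem_Icc.2 ⟨h9.one_lt.le, h8.2⟩, h9⟩
        · intro p _ _
          positivity
      linarith
    have h6 : ∑ p ∈ S with ¬ p ≤ Y, 1 / (p : ℝ) ≤ 1 := by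
      calc ∑ p ∈ S with ¬ p ≤ Y, 1 / (p : ℝ) ≤ ∑ p ∈ S with ¬ p ≤ Y, (p : ℝ) ^ (η - 1) * ((Y : ℝ) ^ η)⁻¹ := by
            apply sum_le_sum
            intro p hp
            have h8 : Y ≤ p := by
              have := (mem_filter.1 hp).2
              omega
            have h9 : (Y : ℝ) ≤ p := by exact_mod_cast h8
            have hp0 : (0 : ℝ) < p := by linarith
            have h10 : (Y : ℝ) ^ η ≤ (p : ℝ) ^ η := Real.rpow_le_rpow (by positivity) h9 hη.le
            rw [Real.rpow_sub hp0, Real.rpow_one, div_mul_eq_mul_div]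
            apply div_le_div_of_nonneg_right _ hp0.le
            rw [← div_eq_mul_inv, one_le_div (by positivity)]
            exact h10
        _ = (∑ p ∈ S with ¬ p ≤ Y, (p : ℝ) ^ (η - 1)) * ((Y : ℝ) ^ η)⁻¹ := by rw [sum_mul]
        _ ≤ T * ((Y : ℝ) ^ η)⁻¹ := by
            apply mul_le_mul_of_nonneg_right _ (by positivity)
            apply sum_le_sum_of_subset_of_nonneg (filter_subset _ _)
            intro p _ _
            positivity
        _ ≤ 1 := by
            rw [← div_eq_mul_inv, div_le_one (by positivity)]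
            exact hYη
    linarith
  have hlogY : 1 ≤ Real.log Y := by
    have h5 : Real.exp 1 ≤ Y := by
      have := Real.exp_one_lt_d9
      linarith
    calc (1 : ℝ) = Real.log (Real.exp 1) := (Real.log_exp 1).symm
      _ ≤ Real.log Y := Real.log_le_log (Real.exp_pos 1) h5
  have h5 : Real.log Y ≤ (Y : ℝ) ^ ε / ε := Real.log_le_rpow_div (by positivity) hε0
  have h6 : (Real.log Y) ^ (2 * B) ≤ (1 / ε) ^ (2 * B) * (Y : ℝ) ^ η := by
    calc (Real.log Y) ^ (2 * B) ≤ ((Y : ℝ) ^ ε / ε) ^ (2 * B) := pow_le_pow_left₀ (by linarith) h5 _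
      _ = (1 / ε) ^ (2 * B) * ((Y : ℝ) ^ ε) ^ (2 * B) := by rw [div_eq_mul_one_div, mul_pow]; ring
      _ ≤ (1 / ε) ^ (2 * B) * (Y : ℝ) ^ η := by
          apply mul_le_mul_of_nonneg_left _ (by positivity)
          rw [← Real.rpow_natCast, ← Real.rpow_mul (by positivity)]
          apply Real.rpow_le_rpow_of_exponent_le (by linarith)
          rw [hε, div_mul_eq_mul_div, div_le_iff₀ (by positivity)]
          push_cast
          nlinarith
  calc rat m ^ B ≤ (Real.exp (2 * ∑ p ∈ m.primeFactors, 1 / (p : ℝ))) ^ B :=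
        pow_le_pow_left₀ (rat_nonneg m) (rat_le_exp m hm) B
    _ = Real.exp (B * (2 * ∑ p ∈ m.primeFactors, 1 / (p : ℝ))) := by rw [← Real.exp_nat_mul]
    _ ≤ Real.exp (2 * B * (C₁ + 2) + (2 * B : ℕ) * Real.log (Real.log Y)) := by
        apply Real.exp_le_exp.2
        have hB : (0 : ℝ) ≤ B := Nat.cast_nonneg B
        push_cast
        nlinarith
    _ = Real.exp (2 * B * (C₁ + 2)) * (Real.log Y) ^ (2 * B) := by
        rw [Real.exp_add, Real.exp_nat_mul, Real.exp_log (by linarith)]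
    _ ≤ Real.exp (2 * B * (C₁ + 2)) * ((1 / ε) ^ (2 * B) * (T + 4)) := by
        apply mul_le_mul_of_nonneg_left _ (by positivity)
        exact h6.trans (mul_le_mul_of_nonneg_left hYup (by positivity))
    _ = K * (T + 4) := by rw [hK]; ring
    _ ≤ (K * 6 + 1) * (1 + T) := by nlinarith

end Pool.Agent.H342R2.SP
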