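import Mathlib
import Pool.Agent.H342R2.SP.A

namespace Pool.Agent.H342R2.SP
open Finset
open Pool.Agent.H646 (rat)
open Pool.Agent.H646.TuplesM (rat_ge_one rat_nonneg)

lemma card_class {Z m : ℕ} (hm : 1 ≤ m) (T : Finset ℕ) (hT : T ⊆ Icc 1 Z)
    (h : ∀ a ∈ T, ∀ b ∈ T, a ≡ b [MOD m]) : (#T : ℝ) ≤ Z / m + 1 := by
  have h1 : #T ≤ #(range (Z / m + 1)) := by
    apply card_le_card_of_injOn (fun a => a / m)
    · intro a ha
      have := (mem_Icc.1 (hT ha)).2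
      simp only [coe_range, Set.mem_Iio]
      exact Nat.lt_succ_of_le (Nat.div_le_div_right this)
    · intro a ha b hb hab
      have h2 := h a ha b hb
      simp only at hab
      rw [← Nat.div_add_mod a m, ← Nat.div_add_mod b m, hab, h2]
  rw [card_range] at h1
  have h2 : ((Z / m : ℕ) : ℝ) ≤ (Z : ℝ) / m := Nat.cast_div_le
  calc (#T : ℝ) ≤ ((Z / m + 1 : ℕ) : ℝ) := by exact_mod_cast h1
    _ ≤ _ := by push_cast; linarith

/-- averages of `rat` in residue classes -/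
theorem AP (B : ℕ) (η : ℝ) (hη : 0 < η) (hη1 : η ≤ 1 / 2) : ∃ C : ℝ, 1 ≤ C ∧ ∀ Z l r : ℕ, l.Prime → l ≤ Z →
    ∑ h ∈ Icc 1 Z with h ≡ r [MOD l], rat h ^ B ≤ C * (Z / l * (l : ℝ) ^ (2 * η)) := by
  obtain ⟨C₀, hC₀, hPB⟩ := PB B η hη (by linarith)
  have hs : Summable (fun q : ℕ => (q : ℝ) ^ (-(3 / 2 : ℝ))) := Real.summable_nat_rpow.2 (by norm_num)
  have hs2 : Summable (fun q : ℕ => (q : ℝ) ^ (-(1 + η))) := Real.summable_nat_rpow.2 (by linarith)
  set A₁ := ∑' q : ℕ, (q : ℝ) ^ (-(3 / 2 : ℝ)) with hA₁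
  set A₂ := ∑' q : ℕ, (q : ℝ) ^ (-(1 + η)) with hA₂
  have hA₁0 : 0 ≤ A₁ := tsum_nonneg fun q => by positivity
  have hA₂0 : 0 ≤ A₂ := tsum_nonneg fun q => by positivity
  refine ⟨C₀ * (2 + A₁ + 4 * A₂ + 2), by nlinarith, fun Z l r hl hlZ => ?_⟩
  have hl1 : 1 ≤ l := hl.one_lt.le
  have hl0 : (0 : ℝ) < l := by exact_mod_cast hl1
  have hlr : (1 : ℝ) ≤ l := by exact_mod_cast hl1
  have hZl : (1 : ℝ) ≤ (Z : ℝ) / l := by
    rw [one_le_div hl0]; exact_mod_cast hlZ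
  have hle1 : (1 : ℝ) ≤ (l : ℝ) ^ (2 * η) := Real.one_le_rpow hlr (by linarith)
  set L := Nat.log 2 Z with hL
  set Hs := (Icc 1 Z).filter (fun h => h ≡ r [MOD l]) with hHs
  have hHcard : (#Hs : ℝ) ≤ Z / l + 1 := by
    apply card_class hl1 _ (filter_subset _ _)
    intro a ha b hb
    exact (mem_filter.1 ha).2.trans (mem_filter.1 hb).2.symm
  set PL := (Icc 1 L).filter Nat.Prime with hPL
  have h1 : ∑ h ∈ Hs, ∑ q ∈ h.primeFactors with q ≤ Nat.log 2 h, (q : ℝ) ^ (η - 1) ≤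
      ∑ q ∈ PL, (q : ℝ) ^ (η - 1) * #(Hs.filter (fun h => q ∣ h)) := by
    calc ∑ h ∈ Hs, ∑ q ∈ h.primeFactors with q ≤ Nat.log 2 h, (q : ℝ) ^ (η - 1)
        ≤ ∑ h ∈ Hs, ∑ q ∈ PL with q ∣ h, (q : ℝ) ^ (η - 1) := by
          apply sum_le_sum
          intro h hh
          apply sum_le_sum_of_subset_of_nonneg
          · intro q hq
            have h2 := mem_filter.1 hq
            have h3 := Nat.mem_primeFactors.1 h2.1
            have h4 : Nat.log 2 h ≤ L := Nat.log_mono_right (mem_Icc.1 (mem_filter.1 hh).1).2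
            exact mem_filter.2 ⟨mem_filter.2 ⟨mem_Icc.2 ⟨h3.1.one_lt.le, h2.2.trans h4⟩, h3.1⟩, h3.2.1⟩
          · intro q _ _
            positivity
      _ = ∑ q ∈ PL, ∑ h ∈ Hs with q ∣ h, (q : ℝ) ^ (η - 1) := by
          simp_rw [sum_filter (fun q => q ∣ _), sum_filter]
          rw [sum_comm]
      _ = _ := by
          apply sum_congr rfl
          intro q _
          rw [sum_const, nsmul_eq_mul, mul_comm]
  have h2 : ∀ q ∈ PL, (q : ℝ) ^ (η - 1) * #(Hs.filter (fun h => q ∣ h)) ≤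
      (Z / l) * (q : ℝ) ^ (-(3 / 2 : ℝ)) + (L : ℝ) ^ (2 * η) * (q : ℝ) ^ (-(1 + η)) +
        (if q = l then 2 * ((Z : ℝ) / l) else 0) := by
    intro q hq
    have hq1 := mem_filter.1 hq
    have hqp := hq1.2
    have hqL := (mem_Icc.1 hq1.1).2
    have hq1' : (1 : ℝ) ≤ q := by exact_mod_cast hqp.one_lt.le
    have hq0 : (0 : ℝ) < q := by linarith
    have e1 : (q : ℝ) ^ (η - 1) ≤ 1 := by
      apply Real.rpow_le_one_of_one_le_of_nonpos hq1'
      linarith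
    split_ifs with hql
    · have h3 : (#(Hs.filter (fun h => q ∣ h)) : ℝ) ≤ 2 * ((Z : ℝ) / l) := by
        have : (#(Hs.filter (fun h => q ∣ h)) : ℝ) ≤ #Hs := by exact_mod_cast card_filter_le _ _
        linarith
      have h4 : 0 ≤ (Z / l) * (q : ℝ) ^ (-(3 / 2 : ℝ)) + (L : ℝ) ^ (2 * η) * (q : ℝ) ^ (-(1 + η)) := by positivity
      have h5 : (q : ℝ) ^ (η - 1) * #(Hs.filter (fun h => q ∣ h)) ≤ 1 * (2 * ((Z : ℝ) / l)) :=
        mul_le_mul e1 h3 (Nat.cast_nonneg _) zero_le_one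
      linarith
    · have hcop : Nat.Coprime q l := (Nat.coprime_primes hqp hl).2 hql
      have h3 : (#(Hs.filter (fun h => q ∣ h)) : ℝ) ≤ Z / (q * l : ℕ) + 1 := by
        apply card_class (Nat.mul_pos hqp.pos hl.pos) _ ((filter_subset _ _).trans (filter_subset _ _))
        intro a ha b hb
        have ha1 := mem_filter.1 ha
        have hb1 := mem_filter.1 hb
        rw [← Nat.modEq_and_modEq_iff_modEq_mul hcop]
        exact ⟨((Nat.modEq_zero_iff_dvd.2 ha1.2).trans (Nat.modEq_zero_iff_dvd.2 hb1.2).symm),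
          (mem_filter.1 ha1.1).2.trans (mem_filter.1 hb1.1).2.symm⟩
      have h4 : (q : ℝ) ^ (η - 1) * (Z / (q * l : ℕ)) ≤ (Z / l) * (q : ℝ) ^ (-(3 / 2 : ℝ)) := by
        have h5 : (q : ℝ) ^ (η - 1) * (Z / (q * l : ℕ)) = (Z / l) * ((q : ℝ) ^ (η - 1) * (q : ℝ)⁻¹) := by
          push_cast
          field_simp
        rw [h5]
        apply mul_le_mul_of_nonneg_left _ (by positivity)
        rw [← Real.rpow_neg_one (q : ℝ), ← Real.rpow_add hq0]
        apply Real.rpow_le_rpow_of_exponent_le hq1'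
        linarith
      have h5 : (q : ℝ) ^ (η - 1) ≤ (L : ℝ) ^ (2 * η) * (q : ℝ) ^ (-(1 + η)) := by
        have h6 : (q : ℝ) ^ (η - 1) = (q : ℝ) ^ (2 * η) * (q : ℝ) ^ (-(1 + η)) := by
          rw [← Real.rpow_add hq0]; congr 1; ring
        rw [h6]
        apply mul_le_mul_of_nonneg_right _ (by positivity)
        apply Real.rpow_le_rpow hq0.le (by exact_mod_cast hqL) (by linarith)
      have h6 : (q : ℝ) ^ (η - 1) * #(Hs.filter (fun h => q ∣ h)) ≤ (q : ℝ) ^ (η - 1) * (Z / (q * l : ℕ) + 1) :=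
        mul_le_mul_of_nonneg_left h3 (by positivity)
      linarith
  have h3 : (L : ℝ) ^ (2 * η) ≤ 4 * (Z / l * (l : ℝ) ^ (2 * η)) := by
    rcases le_or_gt L l with hLl | hLl
    · have h4 : (L : ℝ) ^ (2 * η) ≤ (l : ℝ) ^ (2 * η) :=
        Real.rpow_le_rpow (Nat.cast_nonneg _) (by exact_mod_cast hLl) (by linarith)
      nlinarith
    · have hL1 : 1 ≤ L := by omega
      have hLr : (1 : ℝ) ≤ L := by exact_mod_cast hL1
      have h4 : (L : ℝ) ^ (2 * η) ≤ L := by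
        calc (L : ℝ) ^ (2 * η) ≤ (L : ℝ) ^ (1 : ℝ) := Real.rpow_le_rpow_of_exponent_le hLr (by linarith)
          _ = L := Real.rpow_one _
      have h5 : L ^ 2 ≤ 4 * Z := by
        have h6 : ∀ n : ℕ, n ^ 2 ≤ 4 * 2 ^ n := by
          intro n
          induction n with
          | zero => norm_num
          | succ n ih =>
            rcases Nat.lt_or_ge n 3 with h | h
            · interval_cases n <;> norm_num
            · rw [pow_succ 2 n]; nlinarith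
        have h7 : 2 ^ L ≤ Z := Nat.pow_log_le_self 2 (by omega)
        calc L ^ 2 ≤ 4 * 2 ^ L := h6 L
          _ ≤ 4 * Z := by omega
      have h6 : (L : ℝ) * l ≤ 4 * Z := by
        have h7 : L * l ≤ L ^ 2 := by rw [pow_two]; exact Nat.mul_le_mul_left _ hLl.le
        exact_mod_cast h7.trans h5
      have h7 : (L : ℝ) ≤ 4 * (Z / l) := by
        rw [← mul_div_assoc, le_div_iff₀ hl0]; exact h6
      nlinarith
  have h4 : ∑ q ∈ PL, (q : ℝ) ^ (η - 1) * #(Hs.filter (fun h => q ∣ h)) ≤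
      (Z / l) * A₁ + (L : ℝ) ^ (2 * η) * A₂ + 2 * ((Z : ℝ) / l) := by
    refine (sum_le_sum h2).trans ?_
    rw [sum_add_distrib, sum_add_distrib, ← mul_sum, ← mul_sum]
    have h5 : ∑ q ∈ PL, (q : ℝ) ^ (-(3 / 2 : ℝ)) ≤ A₁ := hs.sum_le_tsum _ fun q _ => by positivity
    have h6 : ∑ q ∈ PL, (q : ℝ) ^ (-(1 + η)) ≤ A₂ := hs2.sum_le_tsum _ fun q _ => by positivity
    have h7 : ∑ q ∈ PL, (if q = l then 2 * ((Z : ℝ) / l) else 0) ≤ 2 * ((Z : ℝ) / l) := by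
      rw [sum_ite_eq']
      split_ifs
      · exact le_rfl
      · positivity
    have h8 : (Z / l : ℝ) * ∑ q ∈ PL, (q : ℝ) ^ (-(3 / 2 : ℝ)) ≤ Z / l * A₁ :=
      mul_le_mul_of_nonneg_left h5 (by positivity)
    have h9 : (L : ℝ) ^ (2 * η) * ∑ q ∈ PL, (q : ℝ) ^ (-(1 + η)) ≤ (L : ℝ) ^ (2 * η) * A₂ :=
      mul_le_mul_of_nonneg_left h6 (by positivity)
    linarith
  calc ∑ h ∈ Hs, rat h ^ B ≤ ∑ h ∈ Hs, C₀ * (1 + ∑ q ∈ h.primeFactors with q ≤ Nat.log 2 h, (q : ℝ) ^ (η - 1)) := by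
        apply sum_le_sum
        intro h hh
        exact hPB h (mem_Icc.1 (mem_filter.1 hh).1).1
    _ = C₀ * (#Hs + ∑ h ∈ Hs, ∑ q ∈ h.primeFactors with q ≤ Nat.log 2 h, (q : ℝ) ^ (η - 1)) := by
        rw [← mul_sum, sum_add_distrib, sum_const, nsmul_eq_mul, mul_one]
    _ ≤ C₀ * (Z / l + 1 + ((Z / l) * A₁ + (L : ℝ) ^ (2 * η) * A₂ + 2 * ((Z : ℝ) / l))) := by
        apply mul_le_mul_of_nonneg_left _ (by linarith)
        linarith
    _ ≤ C₀ * ((2 + A₁ + 4 * A₂ + 2) * (Z / l * (l : ℝ) ^ (2 * η))) := by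
        apply mul_le_mul_of_nonneg_left _ (by linarith)
        have h10 : (Z / l : ℝ) ≤ Z / l * (l : ℝ) ^ (2 * η) := le_mul_of_one_le_right (by positivity) hle1
        nlinarith
    _ = _ := by ring

end Pool.Agent.H342R2.SP
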