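import Mathlib
import Pool.Agent.H342R2.SP.A2
import Pool.Agent.H646.Cheb

namespace Pool.Agent.H342R2.SP
open Finset
open Pool.Agent.H646 (rat P)
open Pool.Agent.H646.TuplesM (rat_ge_one rat_nonneg tuple_bound)

lemma abc_le (a b c : ℝ) (ha : 0 ≤ a) (hb : 0 ≤ b) (hc : 0 ≤ c) (A : ℕ) :
    a ^ A * b ^ A * c ^ A ≤ a ^ (3 * A) + b ^ (3 * A) + c ^ (3 * A) := by
  have key : ∀ x y z : ℝ, 0 ≤ x → 0 ≤ y → 0 ≤ z → x * y * z ≤ x ^ 3 + y ^ 3 + z ^ 3 := by
    intro x y z hx hy hz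
    have h1 : ∀ t : ℝ, 0 ≤ t → 0 ≤ t ^ 3 := fun t ht => by positivity
    rcases le_total x y with h | h <;> rcases le_total y z with h' | h' <;> rcases le_total x z with h'' | h''
    all_goals
      first
        | (have : x * y * z ≤ z * z * z := by
            apply mul_le_mul (mul_le_mul (by linarith) (by linarith) hy (by linarith)) le_rfl hz (by positivity)
           nlinarith [h1 x hx, h1 y hy, h1 z hz])
        | (have : x * y * z ≤ y * y * y := by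
            apply mul_le_mul (mul_le_mul (by linarith) (by linarith) hy (by linarith)) (by linarith) hz (by positivity)
           nlinarith [h1 x hx, h1 y hy, h1 z hz])
        | (have : x * y * z ≤ x * x * x := by
            apply mul_le_mul (mul_le_mul (by linarith) (by linarith) hy (by linarith)) (by linarith) hz (by positivity)
           nlinarith [h1 x hx, h1 y hy, h1 z hz])
  have := key (a ^ A) (b ^ A) (c ^ A) (by positivity) (by positivity) (by positivity)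
  simpa only [← pow_mul, mul_comm A 3] using this

/-- prime triples with two prescribed residues of the differences -/
theorem TB : ∃ C : ℝ, 1 ≤ C ∧ ∃ x₀ : ℕ, ∀ X : ℕ, x₀ ≤ X → ∀ Z l r₁ r₂ : ℕ, l.Prime → l ≤ Z →
    (#{w ∈ Icc 1 Z ×ˢ (Icc 1 Z ×ˢ Icc 1 X) | w.1 ≡ r₁ [MOD l] ∧ w.2.1 ≡ r₂ [MOD l] ∧ w.1 < w.2.1 ∧
      w.2.2.Prime ∧ (w.2.2 + w.1).Prime ∧ (w.2.2 + w.2.1).Prime} : ℝ) ≤
      C * (X / (Real.log X) ^ 3) * ((Z / l) ^ 2 * (l : ℝ) ^ (1 / 16 : ℝ)) := by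
  obtain ⟨C₃, hC₃, A, x₀, htb⟩ := tuple_bound 3 (by norm_num)
  obtain ⟨C₁, hC₁, hAP⟩ := AP (3 * A) (1 / 32) (by norm_num) (by norm_num)
  refine ⟨6 * C₃ * C₁ + 1, by have : 0 < C₃ := hC₃; nlinarith [mul_pos this (by linarith : (0:ℝ) < C₁)], max x₀ 2, fun X hX Z l r₁ r₂ hl hlZ => ?_⟩
  have hX0 : x₀ ≤ X := (le_max_left _ _).trans hX
  have hX2 : 2 ≤ X := (le_max_right _ _).trans hX
  have hlX : 0 < Real.log X := Real.log_pos (by exact_mod_cast (by omega : 1 < X))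
  have hl1 : 1 ≤ l := hl.one_lt.le
  have hl0 : (0 : ℝ) < l := by exact_mod_cast hl1
  have hZl : (1 : ℝ) ≤ (Z : ℝ) / l := by
    rw [one_le_div hl0]; exact_mod_cast hlZ
  have e16 : (2 * (1 / 32) : ℝ) = 1 / 16 := by norm_num
  rw [e16] at hAP
  set G : ℝ := C₃ * X / (Real.log X) ^ 3 with hG
  have hG0 : 0 ≤ G := by have : 0 < C₃ := hC₃; positivity
  set Q : ℝ := Z / l * (l : ℝ) ^ (1 / 16 : ℝ) with hQ
  have hQ0 : 0 ≤ Q := by positivity
  set H1 := (Icc 1 Z).filter (fun h => h ≡ r₁ [MOD l]) with hH1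
  set H2 := (Icc 1 Z).filter (fun h => h ≡ r₂ [MOD l]) with hH2
  have hc1 : (#H1 : ℝ) ≤ 2 * (Z / l) := by
    have := card_class hl1 H1 (filter_subset _ _) (fun a ha b hb => (mem_filter.1 ha).2.trans (mem_filter.1 hb).2.symm)
    linarith
  have hc2 : (#H2 : ℝ) ≤ 2 * (Z / l) := by
    have := card_class hl1 H2 (filter_subset _ _) (fun a ha b hb => (mem_filter.1 ha).2.trans (mem_filter.1 hb).2.symm)
    linarith
  have hs1 : ∑ h ∈ H1, rat h ^ (3 * A) ≤ C₁ * Q := hAP Z l r₁ hl hlZ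
  have hs2 : ∑ h ∈ H2, rat h ^ (3 * A) ≤ C₁ * Q := hAP Z l r₂ hl hlZ
  have hcard : (#{w ∈ Icc 1 Z ×ˢ (Icc 1 Z ×ˢ Icc 1 X) | w.1 ≡ r₁ [MOD l] ∧ w.2.1 ≡ r₂ [MOD l] ∧ w.1 < w.2.1 ∧
      w.2.2.Prime ∧ (w.2.2 + w.1).Prime ∧ (w.2.2 + w.2.1).Prime} : ℝ) =
      ∑ h₁ ∈ H1, ∑ h₂ ∈ H2 with h₁ < h₂, (#{u ∈ Icc 1 X | u.Prime ∧ (u + h₁).Prime ∧ (u + h₂).Prime} : ℝ) := by
    rw [card_filter]
    push_cast
    rw [sum_product, hH1, sum_filter]
    apply sum_congr rfl
    intro h₁ _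
    rw [sum_product]
    split_ifs with hr1
    · rw [hH2, filter_filter, sum_filter]
      apply sum_congr rfl
      intro h₂ _
      split_ifs with hr2
      · rw [card_filter]
        push_cast
        apply sum_congr rfl
        intro u _
        simp [hr1, hr2.1, hr2.2]
      · apply sum_eq_zero
        intro u _
        rw [if_neg]
        rintro ⟨_, h2, h3, _⟩
        exact hr2 ⟨h2, h3⟩
    · apply sum_eq_zero
      intro h₂ _
      apply sum_eq_zero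
      intro u _
      rw [if_neg]
      rintro ⟨h1, _⟩
      exact hr1 h1
  rw [hcard]
  have hone : ∀ h₁ ∈ H1, ∀ h₂ ∈ H2.filter (fun h₂ => h₁ < h₂),
      (#{u ∈ Icc 1 X | u.Prime ∧ (u + h₁).Prime ∧ (u + h₂).Prime} : ℝ) ≤
        G * (rat h₁ ^ (3 * A) + rat h₂ ^ (3 * A) + rat (h₂ - h₁) ^ (3 * A)) := by
    intro h₁ hh₁ h₂ hh₂
    have h1 := (mem_Icc.1 (mem_filter.1 hh₁).1).1
    have h2 := (mem_filter.1 hh₂).2
    have h3 := htb X hX0 ![0, h₁, h₂] (by
      intro i j hij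
      fin_cases i <;> fin_cases j <;> simp_all <;> omega)
    have h4 : ((univ : Finset (Fin 3 × Fin 3)).filter fun q => q.1 < q.2) = {(0, 1), (0, 2), (1, 2)} := by
      decide
    rw [h4, prod_insert (by decide), prod_insert (by decide), prod_singleton] at h3
    have h5 : (#{u ∈ Icc 1 X | u.Prime ∧ (u + h₁).Prime ∧ (u + h₂).Prime} : ℝ) ≤
        G * (rat h₁ ^ A * rat h₂ ^ A * rat (h₂ - h₁) ^ A) := by
      simp only [Fin.forall_fin_succ, Matrix.cons_val_zero, Matrix.cons_val_one,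
        Matrix.cons_val_succ, IsEmpty.forall_iff, and_true, add_zero] at h3
      simp only [Matrix.cons_val] at h3
      calc _ ≤ _ := by simpa using h3
        _ = _ := by rw [hG]; ring
    exact h5.trans (mul_le_mul_of_nonneg_left (abc_le _ _ _ (rat_nonneg _) (rat_nonneg _) (rat_nonneg _) A) hG0)
  have hsum1 : ∑ h₁ ∈ H1, ∑ h₂ ∈ H2 with h₁ < h₂, rat h₁ ^ (3 * A) ≤ 2 * (Z / l) * (C₁ * Q) := by
    calc ∑ h₁ ∈ H1, ∑ h₂ ∈ H2 with h₁ < h₂, rat h₁ ^ (3 * A)
        ≤ ∑ h₁ ∈ H1, 2 * (Z / l) * rat h₁ ^ (3 * A) := by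
          apply sum_le_sum
          intro h₁ _
          rw [sum_const, nsmul_eq_mul]
          apply mul_le_mul_of_nonneg_right _ (pow_nonneg (rat_nonneg _) _)
          exact le_trans (by exact_mod_cast card_filter_le _ _) hc2
      _ = 2 * (Z / l) * ∑ h₁ ∈ H1, rat h₁ ^ (3 * A) := by rw [mul_sum]
      _ ≤ _ := mul_le_mul_of_nonneg_left hs1 (by positivity)
  have hsum2 : ∑ h₁ ∈ H1, ∑ h₂ ∈ H2 with h₁ < h₂, rat h₂ ^ (3 * A) ≤ 2 * (Z / l) * (C₁ * Q) := by
    calc ∑ h₁ ∈ H1, ∑ h₂ ∈ H2 with h₁ < h₂, rat h₂ ^ (3 * A)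
        ≤ ∑ h₁ ∈ H1, C₁ * Q := by
          apply sum_le_sum
          intro h₁ _
          refine le_trans ?_ hs2
          apply sum_le_sum_of_subset_of_nonneg (filter_subset _ _)
          intro h _ _
          exact pow_nonneg (rat_nonneg _) _
      _ = #H1 * (C₁ * Q) := by rw [sum_const, nsmul_eq_mul]
      _ ≤ _ := mul_le_mul_of_nonneg_right hc1 (by positivity)
  have hsum3 : ∑ h₁ ∈ H1, ∑ h₂ ∈ H2 with h₁ < h₂, rat (h₂ - h₁) ^ (3 * A) ≤ 2 * (Z / l) * (C₁ * Q) := by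
    calc ∑ h₁ ∈ H1, ∑ h₂ ∈ H2 with h₁ < h₂, rat (h₂ - h₁) ^ (3 * A)
        ≤ ∑ h₁ ∈ H1, C₁ * Q := by
          apply sum_le_sum
          intro h₁ _
          refine le_trans ?_ (hAP Z l (r₂ + h₁ * (l - 1)) hl hlZ)
          have hinj : Set.InjOn (fun h₂ : ℕ => h₂ - h₁) (H2.filter (fun h₂ => h₁ < h₂)) := by
            intro a ha b hb hab
            have ha' := (mem_filter.1 ha).2
            have hb' := (mem_filter.1 hb).2
            simp only at hab
            omega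
          rw [← sum_image (f := fun h => rat h ^ (3 * A)) hinj]
          apply sum_le_sum_of_subset_of_nonneg
          · intro h hh
            obtain ⟨h₂, hh₂, rfl⟩ := mem_image.1 hh
            have h5 := mem_filter.1 hh₂
            have h6 := mem_filter.1 h5.1
            have h7 := mem_Icc.1 h6.1
            refine mem_filter.2 ⟨mem_Icc.2 ⟨?_, ?_⟩, ?_⟩
            · have := h5.2
              omega
            · omega
            · have h8 : (h₂ - h₁) + h₁ = h₂ := Nat.sub_add_cancel h5.2.le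
              have h9 : (h₂ - h₁) + h₁ + h₁ * (l - 1) ≡ r₂ + h₁ * (l - 1) [MOD l] := by
                rw [h8]; exact h6.2.add_right _
              have h10 : (h₂ - h₁) + h₁ + h₁ * (l - 1) = (h₂ - h₁) + h₁ * l := by
                obtain ⟨t, rfl⟩ := Nat.exists_eq_add_of_le' hl1
                simp only [Nat.add_sub_cancel]
                ring
              rw [h10] at h9
              have h11 : (h₂ - h₁) + h₁ * l ≡ h₂ - h₁ [MOD l] := by
                have : h₁ * l ≡ 0 [MOD l] := Nat.modEq_zero_iff_dvd.2 (dvd_mul_left _ _)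
                simpa using this.add_left (h₂ - h₁)
              exact h11.symm.trans h9
          · intro h _ _
            exact pow_nonneg (rat_nonneg _) _
      _ = #H1 * (C₁ * Q) := by rw [sum_const, nsmul_eq_mul]
      _ ≤ _ := mul_le_mul_of_nonneg_right hc1 (by positivity)
  calc ∑ h₁ ∈ H1, ∑ h₂ ∈ H2 with h₁ < h₂, (#{u ∈ Icc 1 X | u.Prime ∧ (u + h₁).Prime ∧ (u + h₂).Prime} : ℝ)
      ≤ ∑ h₁ ∈ H1, ∑ h₂ ∈ H2 with h₁ < h₂, G * (rat h₁ ^ (3 * A) + rat h₂ ^ (3 * A) + rat (h₂ - h₁) ^ (3 * A)) :=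
        sum_le_sum fun h₁ hh₁ => sum_le_sum fun h₂ hh₂ => hone h₁ hh₁ h₂ hh₂
    _ = G * (∑ h₁ ∈ H1, ∑ h₂ ∈ H2 with h₁ < h₂, rat h₁ ^ (3 * A) +
          ∑ h₁ ∈ H1, ∑ h₂ ∈ H2 with h₁ < h₂, rat h₂ ^ (3 * A) +
          ∑ h₁ ∈ H1, ∑ h₂ ∈ H2 with h₁ < h₂, rat (h₂ - h₁) ^ (3 * A)) := by
        simp_rw [← mul_sum, sum_add_distrib]
    _ ≤ G * (6 * (Z / l) * (C₁ * Q)) := by
        apply mul_le_mul_of_nonneg_left _ hG0
        linarith
    _ = 6 * C₃ * C₁ * (X / (Real.log X) ^ 3) * ((Z / l) ^ 2 * (l : ℝ) ^ (1 / 16 : ℝ)) := by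
        rw [hG, hQ]; ring
    _ ≤ _ := by
        apply mul_le_mul_of_nonneg_right _ (by positivity)
        apply mul_le_mul_of_nonneg_right _ (by positivity)
        linarith

end Pool.Agent.H342R2.SP
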