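import Mathlib
import Pool.Agent.H342R2.SP.B

namespace Pool.Agent.H342R2.SP
open Finset
open Pool.Agent.H646 (rat P)
open Pool.Agent.H646.ChebM (P_le P_strictMono le_P gap_sum)

/-- eventually periodic modulo every large prime -/
def Per (F : ℕ → ℕ) (D n₀ : ℕ) : Prop := ∀ l : ℕ, l.Prime → D < l → ∀ n : ℕ, n₀ ≤ n → F (n + l) ≡ F n [MOD l]

lemma Per.iter {F : ℕ → ℕ} {D n₀ : ℕ} (h : Per F D n₀) {l : ℕ} (hl : l.Prime) (hD : D < l) {n : ℕ} (hn : n₀ ≤ n) (k : ℕ) :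
    F (n + l * k) ≡ F n [MOD l] := by
  induction k with
  | zero => exact Nat.ModEq.refl _
  | succ k ih =>
    have := h l hl hD (n + l * k) (by omega)
    rw [show n + l * (k + 1) = n + l * k + l by ring]
    exact this.trans ih

lemma nongood_card (S : Finset ℕ) (N M : ℕ) (hM : 1 ≤ M) (hS : S ⊆ Ico N (2 * N)) :
    #{n ∈ S | #(S ∩ Ioc n (n + M)) ≤ 1} ≤ 2 * (N / M + 2) := by
  set T := S.filter (fun n => #(S ∩ Ioc n (n + M)) ≤ 1) with hT
  have h1 : #T ≤ 2 * #(T.image (fun n => n / M)) := by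
    apply card_le_mul_card_image
    intro v _
    by_contra hcon
    push Not at hcon
    set Fb := T.filter (fun n => n / M = v) with hFb
    have hne : Fb.Nonempty := by
      rw [← card_pos]; omega
    have hmin := min'_mem Fb hne
    set a := Fb.min' hne with ha
    have hsub : Fb.erase a ⊆ S ∩ Ioc a (a + M) := by
      intro b hb
      have hb1 := mem_erase.1 hb
      have hb2 := mem_filter.1 hb1.2
      have hab : a ≤ b := min'_le Fb b hb1.2
      have hav := (mem_filter.1 hmin).2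
      refine mem_inter.2 ⟨(mem_filter.1 hb2.1).1, mem_Ioc.2 ⟨lt_of_le_of_ne hab (Ne.symm hb1.1), ?_⟩⟩
      have e1 := Nat.div_add_mod a M
      have e2 := Nat.div_add_mod b M
      have e3 := Nat.mod_lt b (show M > 0 by omega)
      have e4 : a / M = b / M := hav.trans hb2.2.symm
      rw [← e4] at e2
      omega
    have h3 := card_le_card hsub
    rw [card_erase_of_mem hmin] at h3
    have h4 := (mem_filter.1 (mem_filter.1 hmin).1).2
    omega
  have h2 : T.image (fun n => n / M) ⊆ Icc (N / M) (2 * N / M) := by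
    intro v hv
    obtain ⟨n, hn, rfl⟩ := mem_image.1 hv
    have := mem_Ico.1 (hS (mem_filter.1 hn).1)
    exact mem_Icc.2 ⟨Nat.div_le_div_right this.1, Nat.div_le_div_right this.2.le⟩
  have h3 := card_le_card h2
  rw [Nat.card_Icc] at h3
  have h4 : 2 * N / M ≤ N / M + N / M + 1 := by
    rw [Nat.div_le_iff_le_mul_add_pred (by omega)]
    have e1 := Nat.div_add_mod N M
    have e3 := Nat.mod_lt N (show M > 0 by omega)
    have e4 : M * (N / M + N / M + 1) = 2 * (M * (N / M)) + M := by ring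
    omega
  omega

lemma long_card (C₀ : ℝ) (hC₀ : 1 ≤ C₀) (hP : ∀ n : ℕ, 2 ≤ n → (P n : ℝ) ≤ C₀ * (n * Real.log n))
    (N M Z : ℕ) (hN : 2 ≤ N) (hM : 1 ≤ M) (hMN : M ≤ N) :
    (#{n ∈ Ico N (2 * N) | P n + Z < P (n + M)} : ℝ) * Z ≤ M * (12 * C₀ * (N * Real.log N)) := by
  have hN' : (2 : ℝ) ≤ N := by exact_mod_cast hN
  set S := (Ico N (2 * N)).filter (fun n => P n + Z < P (n + M)) with hS
  have h1 : (#S : ℝ) * Z ≤ ∑ n ∈ S, ((P (n + M) : ℝ) - P n) := by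
    rw [← nsmul_eq_mul]
    refine card_nsmul_le_sum _ _ _ ?_
    intro n hn
    have h2 := (mem_filter.1 hn).2
    have : ((P n + Z : ℕ) : ℝ) ≤ P (n + M) := by exact_mod_cast h2.le
    push_cast at this
    linarith
  have h2 : ∑ n ∈ S, ((P (n + M) : ℝ) - P n) ≤ ∑ n ∈ range (2 * N), ((P (n + M) : ℝ) - P n) := by
    refine sum_le_sum_of_subset_of_nonneg ?_ ?_
    · intro n hn
      exact mem_range.2 (mem_Ico.1 (mem_filter.1 hn).1).2
    · intro n _ _
      have : (P n : ℝ) ≤ P (n + M) := by exact_mod_cast (P_strictMono.monotone (by omega))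
      linarith
  have h3 := gap_sum (2 * N) M
  have h4 : (P (2 * N + M) : ℝ) ≤ 12 * C₀ * (N * Real.log N) := by
    have hm : (P (2 * N + M) : ℝ) ≤ P (4 * N) := by
      exact_mod_cast (P_strictMono.monotone (by omega))
    have h5 := hP (4 * N) (by omega)
    push_cast at h5
    have hl2 : Real.log 2 ≤ Real.log N := Real.log_le_log (by norm_num) hN'
    have hl4 : Real.log 4 = 2 * Real.log 2 := by
      rw [show (4 : ℝ) = 2 ^ 2 by norm_num, Real.log_pow]; norm_num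
    rw [Real.log_mul (by norm_num) (by linarith), hl4] at h5
    have hN0 : (0 : ℝ) ≤ C₀ * (4 * N) := by positivity
    nlinarith [mul_le_mul_of_nonneg_left (by linarith : 2 * Real.log 2 + Real.log N ≤ 3 * Real.log N) hN0]
  calc (#S : ℝ) * Z ≤ M * P (2 * N + M) := h1.trans (h2.trans h3)
    _ ≤ _ := mul_le_mul_of_nonneg_left h4 (Nat.cast_nonneg _)

/-- the residue forced on a difference of primes -/
def rho (F : ℕ → ℕ) (l n₀ i ν : ℕ) : ℕ := 2 * F (ν + l * n₀) + (l - 1) * (2 * F (ν + l * n₀ + i))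

lemma rho_spec {F : ℕ → ℕ} {D n₀ : ℕ} (hper : Per F D n₀) {l : ℕ} (hl : l.Prime) (hDl : D < l)
    {n a : ℕ} (hn : l * (n₀ + 2) ≤ n) (ha : P (n + a) + 2 * F (n + a) ≡ P n + 2 * F n [MOD l]) :
    P (n + a) - P n ≡ rho F l n₀ a (n % l) [MOD l] := by
  have hl1 : 1 ≤ l := hl.one_lt.le
  obtain ⟨q, hq⟩ : ∃ q, n = n % l + l * n₀ + l * q := by
    have h1 := Nat.div_add_mod n l
    have h3 : n₀ ≤ n / l := by
      rw [Nat.le_div_iff_mul_le hl.pos]
      nlinarith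
    refine ⟨n / l - n₀, ?_⟩
    obtain ⟨e, he⟩ := Nat.exists_eq_add_of_le h3
    rw [he, Nat.add_sub_cancel_left]
    rw [he, mul_add] at h1
    omega
  set ν := n % l with hν
  have hln : n₀ ≤ ν + l * n₀ := by nlinarith
  have hF0 : F n ≡ F (ν + l * n₀) [MOD l] := by
    have := hper.iter hl hDl hln q
    rwa [← hq] at this
  have hFa : F (n + a) ≡ F (ν + l * n₀ + a) [MOD l] := by
    have := hper.iter hl hDl (show n₀ ≤ ν + l * n₀ + a by omega) q
    rwa [show ν + l * n₀ + a + l * q = ν + l * n₀ + l * q + a by ring, ← hq] at this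
  have hle : P n ≤ P (n + a) := P_strictMono.monotone (by omega)
  have h4 : P (n + a) - P n + 2 * F (n + a) ≡ 2 * F n [MOD l] := by
    have h5 : P n + (P (n + a) - P n + 2 * F (n + a)) ≡ P n + 2 * F n [MOD l] := by
      have : P n + (P (n + a) - P n + 2 * F (n + a)) = P (n + a) + 2 * F (n + a) := by omega
      rw [this]; exact ha
    exact Nat.ModEq.add_left_cancel' _ h5
  have h6 : P (n + a) - P n + 2 * F (ν + l * n₀ + a) ≡ 2 * F (ν + l * n₀) [MOD l] := by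
    have h7 : P (n + a) - P n + 2 * F (ν + l * n₀ + a) ≡ P (n + a) - P n + 2 * F (n + a) [MOD l] :=
      (hFa.symm.mul_left 2).add_left _
    exact h7.trans (h4.trans (hF0.mul_left 2))
  have h8 : rho F l n₀ a ν + 2 * F (ν + l * n₀ + a) ≡ 2 * F (ν + l * n₀) [MOD l] := by
    have h9 : rho F l n₀ a ν + 2 * F (ν + l * n₀ + a) = 2 * F (ν + l * n₀) + l * (2 * F (ν + l * n₀ + a)) := by
      unfold rho
      obtain ⟨s, rfl⟩ := Nat.exists_eq_add_of_le' hl1
      simp only [Nat.add_sub_cancel]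
      ring
    rw [h9]
    have : l * (2 * F (ν + l * n₀ + a)) ≡ 0 [MOD l] := Nat.modEq_zero_iff_dvd.2 (dvd_mul_right _ _)
    simpa using this.add_left (2 * F (ν + l * n₀))
  exact Nat.ModEq.add_right_cancel' _ (h6.trans h8.symm)

noncomputable def TT (F : ℕ → ℕ) (N M Z l i j ν : ℕ) : Finset ℕ :=
  (Ico N (2 * N)).filter (fun n => n % l = ν ∧ i < j ∧ P (n + M) ≤ P n + Z ∧
      P (n + i) + 2 * F (n + i) ≡ P n + 2 * F n [MOD l] ∧ P (n + j) + 2 * F (n + j) ≡ P n + 2 * F n [MOD l])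

lemma TT_le {F : ℕ → ℕ} {D n₀ : ℕ} (hper : Per F D n₀) {l : ℕ} (hl : l.Prime) (hDl : D < l)
    {N M Z i j ν : ℕ} (hN : l * (n₀ + 2) ≤ N) (hi : 1 ≤ i) (hj : j ≤ M) :
    #(TT F N M Z l i j ν) ≤ #{w ∈ Icc 1 Z ×ˢ (Icc 1 Z ×ˢ Icc 1 (P (2 * N))) | w.1 ≡ rho F l n₀ i ν [MOD l] ∧
      w.2.1 ≡ rho F l n₀ j ν [MOD l] ∧ w.1 < w.2.1 ∧ w.2.2.Prime ∧ (w.2.2 + w.1).Prime ∧ (w.2.2 + w.2.1).Prime} := by
  apply card_le_card_of_injOn (fun n => (P (n + i) - P n, P (n + j) - P n, P n))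
  · intro n hn
    have hn0 : n ∈ TT F N M Z l i j ν := hn
    unfold TT at hn0
    rw [mem_filter, mem_Ico] at hn0
    obtain ⟨⟨hN1, hN2⟩, hn2, hn3, hn4, hn5, hn6⟩ := hn0
    have m1 : P n < P (n + i) := P_strictMono (by omega)
    have m2 : P (n + i) < P (n + j) := P_strictMono (by omega)
    have m3 : P (n + j) ≤ P (n + M) := P_strictMono.monotone (by omega)
    have m4 : P n ≤ P (2 * N) := P_strictMono.monotone (by omega)
    have m5 : 1 ≤ P n := (Nat.prime_nth_prime n).one_lt.le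
    have r1 := rho_spec hper hl hDl (hN.trans hN1) hn5
    have r2 := rho_spec hper hl hDl (hN.trans hN1) hn6
    rw [hn2] at r1 r2
    have p1 : (P n + (P (n + i) - P n)).Prime := by
      rw [Nat.add_sub_cancel' m1.le]; exact Nat.prime_nth_prime _
    have p2 : (P n + (P (n + j) - P n)).Prime := by
      rw [Nat.add_sub_cancel' (m1.trans m2).le]; exact Nat.prime_nth_prime _
    rw [mem_coe, mem_filter, mem_product, mem_product, mem_Icc, mem_Icc, mem_Icc]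
    exact ⟨⟨⟨Nat.sub_pos_of_lt m1, Nat.sub_le_iff_le_add'.2 ((m2.le.trans m3).trans hn4)⟩,
      ⟨Nat.sub_pos_of_lt (m1.trans m2), Nat.sub_le_iff_le_add'.2 (m3.trans hn4)⟩, m5, m4⟩, r1, r2,
      Nat.sub_lt_sub_right m1.le m2, Nat.prime_nth_prime n, p1, p2⟩
  · intro a _ b _ hab
    simp only [Prod.mk.injEq] at hab
    exact P_strictMono.injective hab.2.2

set_option maxHeartbeats 4000000 in
/-- few `n` with `P n + 2 F n` in a given class modulo a prime of moderate size -/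
theorem CB (D A : ℕ) (hA : 1 ≤ A) :
    ∃ C : ℝ, 1 ≤ C ∧ ∀ n₀ : ℕ, ∃ N₀ : ℕ, ∀ F : ℕ → ℕ, Per F D n₀ → ∀ N : ℕ, N₀ ≤ N → ∀ l : ℕ, l.Prime → D < l → (l : ℝ) ≤ A * Real.log N → ∀ c : ℕ,
      (#{n ∈ Ico N (2 * N) | P n + 2 * F n ≡ c [MOD l]} : ℝ) ≤ C * (N / (l : ℝ) ^ (1 / 8 : ℝ)) := by
  obtain ⟨C₀, hC₀, hP⟩ := P_le
  obtain ⟨Ct, hCt, x₀, hTB⟩ := TB
  have hAr : (1 : ℝ) ≤ A := by exact_mod_cast hA
  have hAr0 : (0 : ℝ) < A := by linarith
  set K : ℝ := 16 * A ^ 2 * (4 * C₀) * Ct with hK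
  refine ⟨20 + 48 * C₀ + K, by nlinarith [sq_nonneg (A : ℝ), show 0 ≤ K by positivity], fun n₀ => ?_⟩
  -- N large
  have hlogt := Real.tendsto_log_atTop
  have hlo := Real.isLittleO_log_id_atTop
  have ev1 : ∀ᶠ x : ℝ in Filter.atTop, (n₀ + 2) * (A * Real.log x) ≤ x := by
    have h1 := hlo.bound (show (0 : ℝ) < 1 / ((n₀ + 2) * A) by positivity)
    filter_upwards [h1, Filter.eventually_ge_atTop (1 : ℝ)] with x hx hx1
    simp only [id, Real.norm_eq_abs] at hx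
    rw [abs_of_nonneg (Real.log_nonneg hx1), abs_of_nonneg (by linarith), one_div,
      inv_mul_eq_div, le_div_iff₀ (by positivity)] at hx
    linarith
  have ev2 : ∀ᶠ x : ℝ in Filter.atTop, 1 ≤ Real.log x := hlogt.eventually_ge_atTop 1
  obtain ⟨x₁, hx₁⟩ := Filter.eventually_atTop.1 (ev1.and ev2)
  refine ⟨max (max x₀ 2) (⌈x₁⌉₊), fun F hper N hN l hl hDl hlA c => ?_⟩
  have hNx0 : x₀ ≤ N := (le_max_left _ _).trans ((le_max_left _ _).trans hN)
  have hN2 : 2 ≤ N := (le_max_right _ _).trans ((le_max_left _ _).trans hN)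
  have hNx1 : x₁ ≤ N := (Nat.le_ceil x₁).trans (by exact_mod_cast (le_max_right _ _).trans hN)
  obtain ⟨hb1, hb2⟩ := hx₁ N hNx1
  have hNr : (2 : ℝ) ≤ N := by exact_mod_cast hN2
  set lg := Real.log N with hlg
  have hl1 : 1 ≤ l := hl.one_lt.le
  have hlr : (1 : ℝ) ≤ l := by exact_mod_cast hl1
  have hl0 : (0 : ℝ) < l := by linarith
  set θ : ℝ := (l : ℝ) ^ (1 / 8 : ℝ) with hθ
  have hθ1 : 1 ≤ θ := Real.one_le_rpow hlr (by norm_num)
  set M : ℕ := ⌊θ⌋₊ with hM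
  have hM1 : 1 ≤ M := Nat.le_floor (by simpa using hθ1)
  have hMr : (1 : ℝ) ≤ M := by exact_mod_cast hM1
  have hMθ : (M : ℝ) ≤ θ := Nat.floor_le (by linarith)
  have hθM : θ ≤ 2 * M := by
    have := Nat.lt_floor_add_one θ
    rw [← hM] at this
    linarith
  have hM8 : (M : ℝ) ^ 8 ≤ l := by
    calc (M : ℝ) ^ 8 ≤ θ ^ 8 := pow_le_pow_left₀ (by linarith) hMθ 8
      _ = l := by
        rw [hθ, ← Real.rpow_natCast, ← Real.rpow_mul hl0.le]; norm_num
  have hlNlog : (l : ℝ) * (n₀ + 2) ≤ N := by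
    calc (l : ℝ) * (n₀ + 2) ≤ A * lg * (n₀ + 2) := mul_le_mul_of_nonneg_right hlA (by positivity)
      _ ≤ N := by linarith
  have hlN : l * (n₀ + 2) ≤ N := by exact_mod_cast hlNlog
  have hMl : M ≤ l := by
    have : (M : ℝ) ≤ l := by
      calc (M : ℝ) ≤ (M : ℝ) ^ 8 := le_self_pow₀ hMr (by norm_num)
        _ ≤ l := hM8
    exact_mod_cast this
  have hMN : M ≤ N := by nlinarith
  set Z : ℕ := ⌈A * (M : ℝ) ^ 2 * lg⌉₊ with hZ
  have hAM : 1 ≤ A * (M : ℝ) ^ 2 * lg := by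
    have : 1 ≤ A * (M : ℝ) ^ 2 := by nlinarith [one_le_pow₀ (n := 2) hMr]
    nlinarith
  have hZlow : A * (M : ℝ) ^ 2 * lg ≤ Z := Nat.le_ceil _
  have hZup : (Z : ℝ) ≤ 2 * (A * (M : ℝ) ^ 2 * lg) := by
    have := Nat.ceil_lt_add_one (show 0 ≤ A * (M : ℝ) ^ 2 * lg by linarith)
    rw [← hZ] at this
    linarith
  have hlZ : l ≤ Z := by
    have : (l : ℝ) ≤ Z := by
      refine hlA.trans (le_trans ?_ hZlow)
      have : (A : ℝ) ≤ A * (M : ℝ) ^ 2 := le_mul_of_one_le_right (by linarith) (one_le_pow₀ hMr)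
      exact mul_le_mul_of_nonneg_right this (by linarith)
    exact_mod_cast this
  have hZ0 : (0 : ℝ) < Z := by linarith
  set S := (Ico N (2 * N)).filter (fun n => P n + 2 * F n ≡ c [MOD l]) with hS
  set S1 := S.filter (fun n => #(S ∩ Ioc n (n + M)) ≤ 1) with hS1
  set S2 := (Ico N (2 * N)).filter (fun n => P n + Z < P (n + M)) with hS2
  -- target sets
  set X := P (2 * N) with hX
  set Tt : ℕ × ℕ × ℕ → Finset ℕ := fun t => TT F N M Z l t.1 t.2.1 t.2.2 with hTt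
  have hsub : S ⊆ S1 ∪ (S2 ∪ (Icc 1 M ×ˢ (Icc 1 M ×ˢ range l)).biUnion Tt) := by
    intro n hn
    rw [mem_union, mem_union]
    by_cases h1 : #(S ∩ Ioc n (n + M)) ≤ 1
    · exact Or.inl (mem_filter.2 ⟨hn, h1⟩)
    by_cases h2 : P n + Z < P (n + M)
    · exact Or.inr (Or.inl (mem_filter.2 ⟨(mem_filter.1 hn).1, h2⟩))
    right; right
    push Not at h1 h2
    obtain ⟨a, ha, b, hb, hab⟩ := one_lt_card.1 h1
    have key : ∀ a b : ℕ, a ∈ S ∩ Ioc n (n + M) → b ∈ S ∩ Ioc n (n + M) → a < b →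
        n ∈ (Icc 1 M ×ˢ (Icc 1 M ×ˢ range l)).biUnion Tt := by
      intro a b ha hb hab
      have ha1 := mem_inter.1 ha
      have hb1 := mem_inter.1 hb
      have ha2 := mem_Ioc.1 ha1.2
      have hb2 := mem_Ioc.1 hb1.2
      have ha3 := (mem_filter.1 ha1.1).2
      have hb3 := (mem_filter.1 hb1.1).2
      have hn3 := (mem_filter.1 hn).2
      rw [mem_biUnion]
      refine ⟨(a - n, b - n, n % l), ?_, ?_⟩
      · simp only [mem_product, mem_Icc, mem_range]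
        exact ⟨⟨by omega, by omega⟩, ⟨by omega, by omega⟩, Nat.mod_lt _ hl.pos⟩
      · rw [hTt]
        unfold TT
        rw [mem_filter]
        refine ⟨(mem_filter.1 hn).1, rfl, Nat.sub_lt_sub_right ha2.1.le hab, h2, ?_, ?_⟩
        · rw [Nat.add_sub_cancel' ha2.1.le]
          exact ha3.trans hn3.symm
        · rw [Nat.add_sub_cancel' hb2.1.le]
          exact hb3.trans hn3.symm
    rcases lt_or_gt_of_ne hab with h | h
    · exact key a b ha hb h
    · exact key b a hb ha h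
  have hc0 : (#S : ℝ) ≤ #S1 + #S2 + ∑ t ∈ Icc 1 M ×ˢ (Icc 1 M ×ˢ range l), (#(Tt t) : ℝ) := by
    have h1 := card_le_card hsub
    have h2 : #(S1 ∪ (S2 ∪ (Icc 1 M ×ˢ (Icc 1 M ×ˢ range l)).biUnion Tt)) ≤
        #S1 + (#S2 + ∑ t ∈ Icc 1 M ×ˢ (Icc 1 M ×ˢ range l), #(Tt t)) :=
      (card_union_le _ _).trans (Nat.add_le_add_left ((card_union_le _ _).trans
        (Nat.add_le_add_left card_biUnion_le _)) _)
    have h3 : (#S : ℝ) ≤ ((#S1 + (#S2 + ∑ t ∈ Icc 1 M ×ˢ (Icc 1 M ×ˢ range l), #(Tt t)) : ℕ) : ℝ) := by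
      exact_mod_cast h1.trans h2
    push_cast at h3
    linarith
  -- first part
  have hNθ : (1 : ℝ) ≤ N / θ := by
    rw [one_le_div (by linarith)]
    calc θ ≤ 2 * M := hθM
      _ ≤ 2 * l := by
        have : (M : ℝ) ≤ l := by exact_mod_cast hMl
        linarith
      _ ≤ l * (n₀ + 2) := by nlinarith [Nat.cast_nonneg (α := ℝ) n₀]
      _ ≤ N := hlNlog
  have hNM : (N : ℝ) / M ≤ 2 * (N / θ) := by
    rw [← mul_div_assoc, div_le_div_iff₀ (by linarith) (by linarith)]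
    nlinarith
  have hc1 : (#S1 : ℝ) ≤ 20 * (N / θ) := by
    have h1 := nongood_card S N M hM1 (filter_subset _ _)
    have h2 : (#S1 : ℝ) ≤ ((2 * (N / M + 2) : ℕ) : ℝ) := by exact_mod_cast h1
    have h3 : ((N / M : ℕ) : ℝ) ≤ (N : ℝ) / M := Nat.cast_div_le
    push_cast at h2
    linarith
  have hc2 : (#S2 : ℝ) ≤ 48 * C₀ * (N / θ) := by
    have h1 := long_card C₀ hC₀ hP N M Z hN2 hM1 hMN
    have h2 : (#S2 : ℝ) * (A * (M : ℝ) ^ 2 * lg) ≤ M * (12 * C₀ * (N * lg)) :=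
      (mul_le_mul_of_nonneg_left hZlow (Nat.cast_nonneg _)).trans h1
    have h3 : (#S2 : ℝ) * M ≤ 12 * C₀ * N := by
      have h4 : (#S2 : ℝ) * (1 * (M : ℝ) ^ 2 * lg) ≤ M * (12 * C₀ * (N * lg)) := by
        refine le_trans ?_ h2
        apply mul_le_mul_of_nonneg_left _ (Nat.cast_nonneg _)
        apply mul_le_mul_of_nonneg_right _ (by linarith)
        exact mul_le_mul_of_nonneg_right hAr (by positivity)
      have h5 : ((#S2 : ℝ) * M) * (M * lg) ≤ (12 * C₀ * N) * (M * lg) := by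
        calc _ = (#S2 : ℝ) * (1 * (M : ℝ) ^ 2 * lg) := by ring
          _ ≤ _ := h4
          _ = _ := by ring
      exact le_of_mul_le_mul_right h5 (by positivity)
    have h4 : (#S2 : ℝ) ≤ 12 * C₀ * (N / M) := by
      rw [← mul_div_assoc, le_div_iff₀ (by linarith)]; exact h3
    calc (#S2 : ℝ) ≤ 12 * C₀ * (N / M) := h4
      _ ≤ 12 * C₀ * (2 * (N / θ)) := mul_le_mul_of_nonneg_left hNM (by positivity)
      _ ≤ _ := by nlinarith
  -- triples
  have hXN : N ≤ X := by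
    have := le_P (2 * N)
    omega
  have hX3 : (X : ℝ) / (Real.log X) ^ 3 ≤ 4 * C₀ * (N / lg ^ 2) := by
    have h1 := hP (2 * N) (by omega)
    push_cast at h1
    have hl2 : Real.log 2 ≤ lg := Real.log_le_log (by norm_num) hNr
    rw [Real.log_mul (by norm_num) (by linarith)] at h1
    have h2 : (X : ℝ) ≤ 4 * C₀ * (N * lg) := by
      have hN0 : (0 : ℝ) ≤ C₀ * (2 * N) := by positivity
      nlinarith [mul_le_mul_of_nonneg_left (by linarith : Real.log 2 + lg ≤ 2 * lg) hN0]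
    have h3 : lg ≤ Real.log X := Real.log_le_log (by linarith) (by exact_mod_cast hXN)
    have h4 : lg ^ 3 ≤ (Real.log X) ^ 3 := pow_le_pow_left₀ (by linarith) h3 3
    calc (X : ℝ) / (Real.log X) ^ 3 ≤ (4 * C₀ * (N * lg)) / lg ^ 3 := by
          apply div_le_div₀ (by positivity) h2 (by positivity) h4
      _ = _ := by field_simp
  have hZl2 : ((Z : ℝ) / l) ^ 2 ≤ 4 * A ^ 2 * M ^ 4 * lg ^ 2 / l ^ 2 := by
    rw [div_pow]
    apply div_le_div_of_nonneg_right _ (by positivity)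
    calc (Z : ℝ) ^ 2 ≤ (2 * (A * (M : ℝ) ^ 2 * lg)) ^ 2 := pow_le_pow_left₀ hZ0.le hZup 2
      _ = _ := by ring
  have hWt : ∀ t ∈ Icc 1 M ×ˢ (Icc 1 M ×ˢ range l), (#(Tt t) : ℝ) ≤
      Ct * (4 * C₀ * (N / lg ^ 2)) * (4 * A ^ 2 * M ^ 4 * lg ^ 2 / l ^ 2 * (l : ℝ) ^ (1 / 16 : ℝ)) := by
    rintro ⟨i, j, ν⟩ ht
    simp only [mem_product, mem_Icc, mem_range] at ht
    have hTW : (#(Tt (i, j, ν)) : ℝ) ≤ _ := Nat.cast_le.2 (TT_le (Z := Z) (ν := ν) hper hl hDl hlN ht.1.1 ht.2.1.2)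
    refine hTW.trans ((hTB X (hNx0.trans hXN) Z l (rho F l n₀ i ν) (rho F l n₀ j ν) hl hlZ).trans ?_)
    apply mul_le_mul _ _ (by positivity) (by positivity)
    · exact mul_le_mul_of_nonneg_left hX3 (by linarith)
    · exact mul_le_mul_of_nonneg_right hZl2 (by positivity)
  have hc3 : ∑ t ∈ Icc 1 M ×ˢ (Icc 1 M ×ˢ range l), (#(Tt t) : ℝ) ≤ K * (N / θ) := by
    have h1 := sum_le_card_nsmul _ _ _ hWt
    rw [nsmul_eq_mul, card_product, card_product, Nat.card_Icc, card_range, Nat.add_sub_cancel] at h1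
    push_cast at h1
    have h16 : (M : ℝ) ^ 6 * (l : ℝ) ^ (1 / 16 : ℝ) * θ ≤ l := by
      have e1 : (M : ℝ) ^ 6 ≤ (l : ℝ) ^ (6 / 8 : ℝ) := by
        calc (M : ℝ) ^ 6 ≤ θ ^ 6 := pow_le_pow_left₀ (by linarith) hMθ 6
          _ = (l : ℝ) ^ (6 / 8 : ℝ) := by
            rw [hθ, ← Real.rpow_natCast, ← Real.rpow_mul hl0.le]; norm_num
      calc (M : ℝ) ^ 6 * (l : ℝ) ^ (1 / 16 : ℝ) * θ ≤ (l : ℝ) ^ (6 / 8 : ℝ) * (l : ℝ) ^ (1 / 16 : ℝ) * (l : ℝ) ^ (1 / 8 : ℝ) := by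
            apply mul_le_mul_of_nonneg_right _ (by positivity)
            exact mul_le_mul_of_nonneg_right e1 (by positivity)
        _ = (l : ℝ) ^ (15 / 16 : ℝ) := by
            rw [← Real.rpow_add hl0, ← Real.rpow_add hl0]; norm_num
        _ ≤ (l : ℝ) ^ (1 : ℝ) := Real.rpow_le_rpow_of_exponent_le hlr (by norm_num)
        _ = l := Real.rpow_one _
    refine h1.trans ?_
    have h2 : (M : ℝ) * (M * l) * (Ct * (4 * C₀ * (N / lg ^ 2)) * (4 * A ^ 2 * M ^ 4 * lg ^ 2 / l ^ 2 * (l : ℝ) ^ (1 / 16 : ℝ))) =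
        16 * A ^ 2 * C₀ * Ct * ((M : ℝ) ^ 6 * (l : ℝ) ^ (1 / 16 : ℝ) / l) * N := by
      field_simp
      ring
    rw [h2]
    have h3 : (M : ℝ) ^ 6 * (l : ℝ) ^ (1 / 16 : ℝ) / l ≤ 1 / θ := by
      rw [div_le_div_iff₀ hl0 (by linarith)]
      linarith
    calc 16 * A ^ 2 * C₀ * Ct * ((M : ℝ) ^ 6 * (l : ℝ) ^ (1 / 16 : ℝ) / l) * N ≤ 16 * A ^ 2 * C₀ * Ct * (1 / θ) * N := by
          apply mul_le_mul_of_nonneg_right _ (Nat.cast_nonneg _)
          exact mul_le_mul_of_nonneg_left h3 (by positivity)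
      _ ≤ K * (N / θ) := by
          rw [hK]
          have : (0 : ℝ) ≤ 16 * A ^ 2 * C₀ * Ct * (N / θ) := by positivity
          calc 16 * A ^ 2 * C₀ * Ct * (1 / θ) * N = 16 * A ^ 2 * C₀ * Ct * (N / θ) := by ring
            _ ≤ _ := by nlinarith
  calc (#S : ℝ) ≤ 20 * (N / θ) + 48 * C₀ * (N / θ) + K * (N / θ) := by linarith
    _ = _ := by ring

end Pool.Agent.H342R2.SP
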