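import Mathlib
import Pool.Agent.H342R2.SP.A
import Pool.Agent.H342R2.SP.C

namespace Pool.Agent.H342R2.SP
open Finset
open Pool.Agent.H646 (rat P)
open Pool.Agent.H646.TuplesM (rat_ge_one rat_nonneg)
open Pool.Agent.H646.ChebM (P_le P_strictMono le_P gap_sum)

lemma g_lt {F : ℕ → ℕ} {n₀ : ℕ} (hmono : ∀ n, n₀ ≤ n → F n ≤ F (n + 1)) {a b : ℕ} (ha : n₀ ≤ a) (hab : a < b) :
    P a + 2 * F a < P b + 2 * F b := by
  have h1 : P a < P b := P_strictMono hab
  have h2 : F a ≤ F b := by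
    obtain ⟨d, rfl⟩ := Nat.exists_eq_add_of_le hab.le
    clear hab h1
    induction d with
    | zero => exact le_rfl
    | succ d ih => exact ih.trans (hmono (a + d) (by omega))
  omega

set_option maxHeartbeats 4000000 in
/-- all moments of the singular factor over the differences are bounded on average -/
theorem MB (D A B : ℕ) (hA : 1 ≤ A) :
    ∃ C : ℝ, 1 ≤ C ∧ ∀ n₀ : ℕ, ∃ N₀ : ℕ, ∀ F : ℕ → ℕ, Per F D n₀ → (∀ n, n₀ ≤ n → F n ≤ F (n + 1)) → ∀ N : ℕ, N₀ ≤ N → P (2 * N) + 2 * F (2 * N) ≤ N ^ A →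
      ∑ n' ∈ Ico N (2 * N), ∑ n ∈ Ico N (2 * N) with n' < n,
        rat ((P n + 2 * F n) - (P n' + 2 * F n')) ^ B ≤ C * (N : ℝ) ^ 2 := by
  obtain ⟨Cp, hCp, hPB⟩ := PB B (1 / 16) (by norm_num) (by norm_num)
  obtain ⟨Cc, hCc, hCB0⟩ := CB D (2 * A) (by omega)
  have hsum : Summable (fun n : ℕ => (n : ℝ) ^ (-17 / 16 : ℝ)) := Real.summable_nat_rpow.2 (by norm_num)
  set Sg : ℝ := ∑' n : ℕ, (n : ℝ) ^ (-17 / 16 : ℝ) with hSg
  have hSg0 : 0 ≤ Sg := tsum_nonneg fun n => by positivity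
  refine ⟨Cp * (1 + (D + 1) + Cc * Sg), ?_, fun n₀ => ?_⟩
  · have : 0 ≤ Cc * Sg := by positivity
    nlinarith [Nat.cast_nonneg (α := ℝ) D]
  obtain ⟨N₁, hCB⟩ := hCB0 n₀
  refine ⟨max (max N₁ n₀) 2, fun F hper hmono N hN hg => ?_⟩
  have hN1 : N₁ ≤ N := (le_max_left _ _).trans ((le_max_left _ _).trans hN)
  have hN0 : n₀ ≤ N := (le_max_right _ _).trans ((le_max_left _ _).trans hN)
  have hN2 : 2 ≤ N := (le_max_right _ _).trans hN
  have hNr : (2 : ℝ) ≤ N := by exact_mod_cast hN2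
  have hlog0 : 0 ≤ Real.log N := Real.log_nonneg (by linarith)
  set g : ℕ → ℕ := fun n => P n + 2 * F n with hgdef
  set Q : ℕ := ⌊2 * A * Real.log N⌋₊ with hQ
  set 𝒬 := (range (Q + 1)).filter Nat.Prime with h𝒬
  set w : ℕ → ℝ := fun q => (q : ℝ) ^ ((1 / 16 : ℝ) - 1) with hw
  have hw0 : ∀ q, 0 ≤ w q := fun q => by positivity
  -- pointwise
  have hpt : ∀ n' ∈ Ico N (2 * N), ∀ n ∈ (Ico N (2 * N)).filter (fun n => n' < n),
      rat (g n - g n') ^ B ≤ Cp * (1 + ∑ q ∈ 𝒬, if g n ≡ g n' [MOD q] then w q else 0) := by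
    intro n' hn' n hn
    have hn1 := mem_filter.1 hn
    have hnI := mem_Ico.1 hn1.1
    have hnI' := mem_Ico.1 hn'
    have hlt : g n' < g n := g_lt hmono (hN0.trans hnI'.1) hn1.2
    have hle : g n ≤ N ^ A := (g_lt hmono (hN0.trans hnI.1) hnI.2).le.trans hg
    set m := g n - g n' with hm
    have hm1 : 1 ≤ m := by omega
    have hmN : m ≤ N ^ A := by omega
    refine (hPB m hm1).trans (mul_le_mul_of_nonneg_left ?_ (by linarith))
    have hmQ : Nat.log 2 m ≤ Q := by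
      apply Nat.le_floor
      have h1 : ((2 ^ Nat.log 2 m : ℕ) : ℝ) ≤ m := by exact_mod_cast Nat.pow_log_le_self 2 (by omega)
      have h2 : (m : ℝ) ≤ (N : ℝ) ^ A := by exact_mod_cast hmN
      have h3 := Real.log_le_log (by positivity) (h1.trans h2)
      rw [Nat.cast_pow, Real.log_pow, Real.log_pow] at h3
      have h4 := Real.log_two_gt_d9
      have h5 : (0 : ℝ) ≤ (Nat.log 2 m : ℝ) := Nat.cast_nonneg _
      push_cast at h3
      nlinarith
    have : ∑ q ∈ m.primeFactors with q ≤ Nat.log 2 m, (q : ℝ) ^ ((1 / 16 : ℝ) - 1) ≤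
        ∑ q ∈ 𝒬, if g n ≡ g n' [MOD q] then w q else 0 := by
      rw [← sum_filter]
      apply sum_le_sum_of_subset_of_nonneg
      · intro q hq
        have hq1 := mem_filter.1 hq
        have hqp := Nat.prime_of_mem_primeFactors hq1.1
        refine mem_filter.2 ⟨mem_filter.2 ⟨mem_range.2 (by omega), hqp⟩, ?_⟩
        exact ((Nat.modEq_iff_dvd' hlt.le).2 (Nat.dvd_of_mem_primeFactors hq1.1)).symm
      · intro q _ _; exact hw0 q
    exact add_le_add le_rfl this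
  have h1 : ∑ n' ∈ Ico N (2 * N), ∑ n ∈ Ico N (2 * N) with n' < n, rat (g n - g n') ^ B ≤
      ∑ n' ∈ Ico N (2 * N), ∑ n ∈ Ico N (2 * N), Cp * (1 + ∑ q ∈ 𝒬, if g n ≡ g n' [MOD q] then w q else 0) := by
    apply sum_le_sum
    intro n' hn'
    refine (sum_le_sum (hpt n' hn')).trans ?_
    apply sum_le_sum_of_subset_of_nonneg (filter_subset _ _)
    intro n _ _
    have : 0 ≤ ∑ q ∈ 𝒬, if g n ≡ g n' [MOD q] then w q else 0 :=
      sum_nonneg fun q _ => by split_ifs; exacts [hw0 q, le_rfl]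
    have : 0 ≤ Cp := by linarith
    positivity
  refine h1.trans ?_
  have hcardI : #(Ico N (2 * N)) = N := by rw [Nat.card_Ico]; omega
  have h2 : ∑ n' ∈ Ico N (2 * N), ∑ n ∈ Ico N (2 * N), Cp * (1 + ∑ q ∈ 𝒬, if g n ≡ g n' [MOD q] then w q else 0) =
      Cp * ((N : ℝ) ^ 2 + ∑ q ∈ 𝒬, w q * ∑ n' ∈ Ico N (2 * N), (#{n ∈ Ico N (2 * N) | g n ≡ g n' [MOD q]} : ℝ)) := by
    simp_rw [← mul_sum, sum_add_distrib]
    congr 1
    congr 1
    · simp only [sum_const, hcardI, nsmul_eq_mul, mul_one]; ring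
    · calc ∑ n' ∈ Ico N (2 * N), ∑ n ∈ Ico N (2 * N), ∑ q ∈ 𝒬, (if g n ≡ g n' [MOD q] then w q else 0)
          = ∑ n' ∈ Ico N (2 * N), ∑ q ∈ 𝒬, ∑ n ∈ Ico N (2 * N), (if g n ≡ g n' [MOD q] then w q else 0) := by
            refine sum_congr rfl fun n' _ => sum_comm
        _ = ∑ q ∈ 𝒬, ∑ n' ∈ Ico N (2 * N), ∑ n ∈ Ico N (2 * N), (if g n ≡ g n' [MOD q] then w q else 0) := sum_comm
        _ = _ := by
            refine sum_congr rfl fun q _ => ?_
            rw [mul_sum]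
            refine sum_congr rfl fun n' _ => ?_
            rw [← sum_filter, sum_const, nsmul_eq_mul, mul_comm]
  rw [h2]
  have h3 : ∀ q ∈ 𝒬, w q * ∑ n' ∈ Ico N (2 * N), (#{n ∈ Ico N (2 * N) | g n ≡ g n' [MOD q]} : ℝ) ≤
      ((if q < D + 1 then 1 else 0) + Cc * (q : ℝ) ^ (-17 / 16 : ℝ)) * (N : ℝ) ^ 2 := by
    intro q hq
    have hq1 := mem_filter.1 hq
    have hqr := mem_range.1 hq1.1
    have hqp : q.Prime := hq1.2
    have hq0 : (0 : ℝ) < q := by exact_mod_cast hqp.pos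
    have hq1' : (1 : ℝ) ≤ q := by exact_mod_cast hqp.one_lt.le
    split_ifs with hqD
    · have e1 : ∑ n' ∈ Ico N (2 * N), (#{n ∈ Ico N (2 * N) | g n ≡ g n' [MOD q]} : ℝ) ≤ (N : ℝ) ^ 2 := by
        calc ∑ n' ∈ Ico N (2 * N), (#{n ∈ Ico N (2 * N) | g n ≡ g n' [MOD q]} : ℝ) ≤ ∑ n' ∈ Ico N (2 * N), (N : ℝ) := by
              apply sum_le_sum
              intro n' _
              have := card_filter_le (Ico N (2 * N)) (fun n => g n ≡ g n' [MOD q])
              rw [hcardI] at this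
              exact_mod_cast this
          _ = (N : ℝ) ^ 2 := by rw [sum_const, hcardI, nsmul_eq_mul]; ring
      have e2 : w q ≤ 1 := Real.rpow_le_one_of_one_le_of_nonpos hq1' (by norm_num)
      have e3 : 0 ≤ Cc * (q : ℝ) ^ (-17 / 16 : ℝ) := by positivity
      have e4 : 0 ≤ ∑ n' ∈ Ico N (2 * N), (#{n ∈ Ico N (2 * N) | g n ≡ g n' [MOD q]} : ℝ) :=
        sum_nonneg fun _ _ => Nat.cast_nonneg _
      have e5 : (1 : ℝ) ≤ 1 + Cc * (q : ℝ) ^ (-17 / 16 : ℝ) := by linarith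
      have e6 : (0 : ℝ) ≤ (N : ℝ) ^ 2 := sq_nonneg _
      exact (mul_le_mul e2 e1 e4 (by norm_num)).trans (mul_le_mul_of_nonneg_right e5 e6)
    · have hDq : D < q := by omega
      have hqA : (q : ℝ) ≤ ((2 * A : ℕ) : ℝ) * Real.log N := by
        have e1 : (q : ℝ) ≤ Q := by exact_mod_cast (Nat.lt_succ_iff.1 hqr)
        have e2 : (Q : ℝ) ≤ 2 * A * Real.log N := Nat.floor_le (by positivity)
        push_cast
        linarith
      have e1 : ∑ n' ∈ Ico N (2 * N), (#{n ∈ Ico N (2 * N) | g n ≡ g n' [MOD q]} : ℝ) ≤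
          N * (Cc * (N / (q : ℝ) ^ (1 / 8 : ℝ))) := by
        calc ∑ n' ∈ Ico N (2 * N), (#{n ∈ Ico N (2 * N) | g n ≡ g n' [MOD q]} : ℝ) ≤
            ∑ n' ∈ Ico N (2 * N), Cc * (N / (q : ℝ) ^ (1 / 8 : ℝ)) :=
              sum_le_sum fun n' _ => hCB F hper N hN1 q hqp hDq hqA (g n')
          _ = _ := by rw [sum_const, hcardI, nsmul_eq_mul]
      calc w q * ∑ n' ∈ Ico N (2 * N), (#{n ∈ Ico N (2 * N) | g n ≡ g n' [MOD q]} : ℝ) ≤
            w q * (N * (Cc * (N / (q : ℝ) ^ (1 / 8 : ℝ)))) := mul_le_mul_of_nonneg_left e1 (hw0 q)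
        _ = (0 + Cc * ((q : ℝ) ^ ((1 / 16 : ℝ) - 1) / (q : ℝ) ^ (1 / 8 : ℝ))) * (N : ℝ) ^ 2 := by
            simp only [hw]; ring
        _ = _ := by
            rw [← Real.rpow_sub hq0]; norm_num
  have h4 : ∑ q ∈ 𝒬, w q * ∑ n' ∈ Ico N (2 * N), (#{n ∈ Ico N (2 * N) | g n ≡ g n' [MOD q]} : ℝ) ≤
      ((D + 1) + Cc * Sg) * (N : ℝ) ^ 2 := by
    refine (sum_le_sum h3).trans ?_
    rw [← sum_mul]
    apply mul_le_mul_of_nonneg_right _ (by positivity)
    rw [sum_add_distrib, ← mul_sum]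
    apply add_le_add
    · rw [← sum_filter, sum_const, nsmul_eq_mul, mul_one]
      have : #(𝒬.filter (fun q => q < D + 1)) ≤ D + 1 := by
        calc #(𝒬.filter (fun q => q < D + 1)) ≤ #(range (D + 1)) := by
              apply card_le_card
              intro q hq
              exact mem_range.2 (mem_filter.1 hq).2
          _ = D + 1 := card_range _
      exact_mod_cast this
    · apply mul_le_mul_of_nonneg_left _ (by linarith)
      exact hsum.sum_le_tsum _ (fun n _ => by positivity)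
  calc Cp * ((N : ℝ) ^ 2 + ∑ q ∈ 𝒬, w q * ∑ n' ∈ Ico N (2 * N), (#{n ∈ Ico N (2 * N) | g n ≡ g n' [MOD q]} : ℝ)) ≤
      Cp * ((N : ℝ) ^ 2 + ((D + 1) + Cc * Sg) * (N : ℝ) ^ 2) :=
        mul_le_mul_of_nonneg_left (by linarith) (by linarith)
    _ = _ := by ring

end Pool.Agent.H342R2.SP
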