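import Mathlib
import Pool.Agent.H342R2.SP.D
import Pool.Agent.H373R2.BH.Pair
import Pool.Agent.H373R2.SH.PntB

namespace Pool.Agent.H342R2.SP
open Finset
open Pool.Agent.H646 (rat P)
open Pool.Agent.H646.TuplesM (rat_ge_one rat_nonneg)
open Pool.Agent.H646.ChebM (P_le P_strictMono le_P gap_sum)
open Pool.Agent.H373R2.BH (pair_window single_window)
open Pool.Agent.H373R2.SH (pnt_windowB)

lemma PZ {ι : Type*} (s : Finset ι) (f : ι → ℝ) (μ K : ℝ) (hμ : 0 < μ) (hK : 0 < K)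
    (h1 : μ * #s ≤ ∑ b ∈ s, f b) (h2 : ∑ b ∈ s, f b ^ 2 ≤ K * μ ^ 2 * #s) :
    (#s : ℝ) / (4 * K) ≤ #{b ∈ s | μ / 2 ≤ f b} := by
  set E := s.filter (fun b => μ / 2 ≤ f b) with hE
  rcases Nat.eq_zero_or_pos #s with h0 | h0
  · rw [h0]; simp
  have hs : (0 : ℝ) < #s := by exact_mod_cast h0
  have e1 : ∑ b ∈ s, f b ≤ ∑ b ∈ E, f b + μ / 2 * #s := by
    rw [← sum_filter_add_sum_filter_not s (fun b => μ / 2 ≤ f b) f]
    have : ∑ b ∈ s with ¬ μ / 2 ≤ f b, f b ≤ μ / 2 * #s := by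
      calc ∑ b ∈ s with ¬ μ / 2 ≤ f b, f b ≤ ∑ b ∈ s with ¬ μ / 2 ≤ f b, μ / 2 := by
            apply sum_le_sum
            intro b hb
            exact (not_le.1 (mem_filter.1 hb).2).le
        _ = μ / 2 * #{b ∈ s | ¬ μ / 2 ≤ f b} := by rw [sum_const, nsmul_eq_mul, mul_comm]
        _ ≤ μ / 2 * #s := by
            apply mul_le_mul_of_nonneg_left _ (by linarith)
            exact_mod_cast card_filter_le _ _
    linarith
  have e2 : μ / 2 * #s ≤ ∑ b ∈ E, f b := by linarith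
  have e3 : (∑ b ∈ E, f b) ^ 2 ≤ #E * ∑ b ∈ E, f b ^ 2 := sq_sum_le_card_mul_sum_sq
  have e4 : ∑ b ∈ E, f b ^ 2 ≤ K * μ ^ 2 * #s :=
    (sum_le_sum_of_subset_of_nonneg (filter_subset _ _) (fun _ _ _ => sq_nonneg _)).trans h2
  have e5 : (μ / 2 * #s) ^ 2 ≤ #E * (K * μ ^ 2 * #s) := by
    calc (μ / 2 * #s) ^ 2 ≤ (∑ b ∈ E, f b) ^ 2 := pow_le_pow_left₀ (by positivity) e2 2
      _ ≤ #E * ∑ b ∈ E, f b ^ 2 := e3
      _ ≤ _ := mul_le_mul_of_nonneg_left e4 (Nat.cast_nonneg _)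
  rw [div_le_iff₀ (by positivity)]
  have e6 : (μ ^ 2 * #s) * #s ≤ (μ ^ 2 * #s) * (#E * (4 * K)) := by nlinarith
  exact le_of_mul_le_mul_left e6 (by positivity)

def Bx (k H : ℕ) : Finset (Fin k → ℕ) := Fintype.piFinset (fun _ => Icc 1 H)

lemma card_Bx (k H : ℕ) : #(Bx k H) = H ^ k := by
  unfold Bx
  rw [Fintype.card_piFinset]
  simp

variable {k : ℕ}

noncomputable def cnt (g : Fin k → ℕ → ℕ) (b : Fin k → ℕ) (N : ℕ) : ℕ :=
  #{n ∈ Ico N (2 * N) | ∀ i, (g i n + 2 * b i).Prime}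

lemma card_filter_real' {ι : Type*} (s : Finset ι) (p : ι → Prop) [DecidablePred p] :
    (#(s.filter p) : ℝ) = ∑ a ∈ s, if p a then 1 else 0 := by
  rw [card_filter]; push_cast; rfl

lemma cnt_eq (g : Fin k → ℕ → ℕ) (b : Fin k → ℕ) (N : ℕ) :
    (cnt g b N : ℝ) = ∑ n ∈ Ico N (2 * N), ∏ i, (if (g i n + 2 * b i).Prime then (1 : ℝ) else 0) := by
  unfold cnt
  rw [card_filter_real']
  apply sum_congr rfl
  intro n _
  rw [prod_ite_zero]
  simp

lemma sum_cnt (g : Fin k → ℕ → ℕ) (H N : ℕ) :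
    ∑ b ∈ Bx k H, (cnt g b N : ℝ) = ∑ n ∈ Ico N (2 * N), ∏ i, (#{u ∈ Icc 1 H | (g i n + 2 * u).Prime} : ℝ) := by
  simp_rw [cnt_eq]
  rw [sum_comm]
  apply sum_congr rfl
  intro n _
  unfold Bx
  rw [← Finset.prod_univ_sum (t := fun _ : Fin k => Icc 1 H) (f := fun i u => if (g i n + 2 * u).Prime then (1 : ℝ) else 0)]
  apply prod_congr rfl
  intro i _
  rw [card_filter_real']

lemma sum_cnt_sq (g : Fin k → ℕ → ℕ) (H N : ℕ) :
    ∑ b ∈ Bx k H, (cnt g b N : ℝ) ^ 2 = ∑ m ∈ Ico N (2 * N), ∑ n ∈ Ico N (2 * N),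
      ∏ i, (#{u ∈ Icc 1 H | (g i m + 2 * u).Prime ∧ (g i n + 2 * u).Prime} : ℝ) := by
  have h1 : ∀ b ∈ Bx k H, (cnt g b N : ℝ) ^ 2 = ∑ m ∈ Ico N (2 * N), ∑ n ∈ Ico N (2 * N),
      ∏ i, (if (g i m + 2 * b i).Prime ∧ (g i n + 2 * b i).Prime then (1 : ℝ) else 0) := by
    intro b _
    rw [sq, cnt_eq, sum_mul_sum]
    apply sum_congr rfl; intro n _
    apply sum_congr rfl; intro m _
    rw [← prod_mul_distrib]
    apply prod_congr rfl; intro i _
    by_cases h1 : (g i n + 2 * b i).Prime <;> by_cases h2 : (g i m + 2 * b i).Prime <;> simp [h1, h2]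
  rw [sum_congr rfl h1, sum_comm]
  apply sum_congr rfl; intro n _
  rw [sum_comm]
  apply sum_congr rfl; intro m _
  unfold Bx
  rw [← Finset.prod_univ_sum (t := fun _ : Fin k => Icc 1 H)
    (f := fun i u => if (g i n + 2 * u).Prime ∧ (g i m + 2 * u).Prime then (1 : ℝ) else 0)]
  apply prod_congr rfl
  intro i _
  rw [card_filter_real']

lemma prod_le_sum_pow' (hk : 1 ≤ k) (a : Fin k → ℝ) (ha : ∀ i, 0 ≤ a i) : ∏ i, a i ≤ ∑ i, a i ^ k := by
  have : Nonempty (Fin k) := ⟨⟨0, hk⟩⟩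
  obtain ⟨i₀, _, hi₀⟩ := exists_max_image (univ : Finset (Fin k)) a univ_nonempty
  calc ∏ i, a i ≤ ∏ _i : Fin k, a i₀ := prod_le_prod (fun i _ => ha i) (fun i hi => hi₀ i hi)
    _ = a i₀ ^ k := by rw [prod_const, card_fin]
    _ ≤ _ := single_le_sum (f := fun i => a i ^ k) (fun i _ => pow_nonneg (ha i) k) (mem_univ i₀)

/-- primes in a window to the right of an odd number -/
lemma single_low : ∃ H₀ : ℕ, ∀ H : ℕ, H₀ ≤ H → ∀ g : ℕ, Odd g → 2 ≤ g → g ≤ H →
    (H : ℝ) / (2 * Real.log H) ≤ (#{u ∈ Icc 1 H | (g + 2 * u).Prime} : ℝ) := by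
  obtain ⟨x₀, hx⟩ := pnt_windowB 1 le_rfl (1 / 2) (by norm_num)
  refine ⟨max x₀ 2, fun H hH g hg hg2 hgH => ?_⟩
  have hHx : x₀ ≤ H := (le_max_left _ _).trans hH
  have hH2 : 2 ≤ H := (le_max_right _ _).trans hH
  have h1 := hx (2 * H) (by omega) g (by omega)
  have h2 : Nat.primeCounting (2 * H + g) ≤ Nat.primeCounting g + #{u ∈ Icc 1 H | (g + 2 * u).Prime} := by
    have e1 : ∀ n, Nat.primeCounting n = #((range (n + 1)).filter Nat.Prime) := by
      intro n
      rw [Nat.primeCounting, Nat.primeCounting', Nat.count_eq_card_filter_range]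
    rw [e1, e1]
    have e2 : (range (2 * H + g + 1)).filter Nat.Prime ⊆ (range (g + 1)).filter Nat.Prime ∪
        ((Icc 1 H).filter (fun u => (g + 2 * u).Prime)).image (fun u => g + 2 * u) := by
      intro p hp
      have hp1 := mem_filter.1 hp
      have hp2 := mem_range.1 hp1.1
      rw [mem_union]
      by_cases h : p < g + 1
      · exact Or.inl (mem_filter.2 ⟨mem_range.2 h, hp1.2⟩)
      · right
        have hodd : Odd p := hp1.2.odd_of_ne_two (by omega)
        obtain ⟨a, ha⟩ := hg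
        obtain ⟨b, hb⟩ := hodd
        have hpe : g + 2 * (b - a) = p := by omega
        refine mem_image.2 ⟨b - a, mem_filter.2 ⟨mem_Icc.2 ⟨by omega, by omega⟩, ?_⟩, hpe⟩
        rw [hpe]; exact hp1.2
    exact (card_le_card e2).trans ((card_union_le _ _).trans (Nat.add_le_add_left card_image_le _))
  have h3 : (Nat.primeCounting (2 * H + g) : ℝ) ≤ Nat.primeCounting g + #{u ∈ Icc 1 H | (g + 2 * u).Prime} := by
    exact_mod_cast h2
  have hHr : (2 : ℝ) ≤ H := by exact_mod_cast hH2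
  have hl2 : Real.log 2 ≤ Real.log H := Real.log_le_log (by norm_num) hHr
  have hl0 : 0 < Real.log 2 := Real.log_pos (by norm_num)
  have h4 : (H : ℝ) / (2 * Real.log H) ≤ (1 - 1 / 2) * ((2 * H : ℕ) / Real.log (2 * H : ℕ)) := by
    push_cast
    rw [Real.log_mul (by norm_num) (by linarith)]
    have : (1 - 1 / 2 : ℝ) * (2 * H / (Real.log 2 + Real.log H)) = H / (Real.log 2 + Real.log H) := by ring
    rw [this]
    apply div_le_div_of_nonneg_left (by positivity) (by linarith) (by linarith)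
  linarith

lemma P_odd {n : ℕ} (hn : 1 ≤ n) : Odd (P n) ∧ 2 ≤ P n := by
  have h1 : P 0 < P n := P_strictMono (by omega)
  have h2 : 2 ≤ P 0 := (Nat.prime_nth_prime 0).two_le
  exact ⟨(Nat.prime_nth_prime n).odd_of_ne_two (by change P n ≠ 2; omega), by omega⟩

set_option maxHeartbeats 4000000 in
/-- positive proportion of the shifts -/
theorem core (hk : 1 ≤ k) (D A : ℕ) (hA : 1 ≤ A) :
    ∃ c : ℝ, 0 < c ∧ ∀ n₀ : ℕ, ∃ N₀ : ℕ, ∀ F : Fin k → ℕ → ℕ, (∀ i, Per (F i) D n₀) →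
      (∀ i n, n₀ ≤ n → F i n ≤ F i (n + 1)) → ∀ N : ℕ, N₀ ≤ N → (∀ i, P (2 * N) + 2 * F i (2 * N) ≤ N ^ A) →
      ∀ H : ℕ, (∀ i, P (2 * N) + 2 * F i (2 * N) ≤ H) → Real.log H ^ k ≤ 4 * N →
      c * (H : ℝ) ^ k ≤ #{b ∈ Bx k H | c * (N / (Real.log H) ^ k) ≤ cnt (fun i n => P n + 2 * F i n) b N} := by
  have hne : Nonempty (Fin k) := ⟨⟨0, hk⟩⟩
  obtain ⟨Cp, hCp, Ap, Hp, hpair⟩ := pair_window
  obtain ⟨Cs, hCs, Ht, hsgl⟩ := single_window
  obtain ⟨Hs, hsing⟩ := single_low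
  obtain ⟨Cm, hCm, hmb0⟩ := MB D A (Ap * k) hA
  set CM : ℝ := k * Cm with hCM
  have hk0 : (0 : ℝ) < k := by exact_mod_cast hk
  have hCM0 : 0 < CM := by positivity
  obtain ⟨x₁, hx₁⟩ := Filter.eventually_atTop.1 (Real.tendsto_log_atTop.eventually_ge_atTop 1)
  set K₂ : ℝ := 4 * (2 * Cs) ^ k + 2 * (2 * Cp) ^ k * CM with hK₂
  have hK₂0 : 0 < K₂ := by positivity
  set K : ℝ := 4 ^ k * K₂ with hK
  have hK0 : 0 < K := by positivity
  set c : ℝ := min (1 / (4 * K)) (1 / (2 * 2 ^ k)) with hc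
  refine ⟨c, by positivity, fun n₀ => ?_⟩
  obtain ⟨N₁, hmb⟩ := hmb0 n₀
  refine ⟨max (max (max (max Hp Ht) Hs) ⌈x₁⌉₊) (max N₁ (max n₀ 3)), fun F hper hmono N hN hgA H hgH hHN => ?_⟩
  have hM1 : max (max (max Hp Ht) Hs) ⌈x₁⌉₊ ≤ N := (le_max_left _ _).trans hN
  have hM2 : max N₁ (max n₀ 3) ≤ N := (le_max_right _ _).trans hN
  have hNHp : Hp ≤ N := (le_max_left _ _).trans ((le_max_left _ _).trans ((le_max_left _ _).trans hM1))
  have hNHt : Ht ≤ N := (le_max_right _ _).trans ((le_max_left _ _).trans ((le_max_left _ _).trans hM1))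
  have hNHs : Hs ≤ N := (le_max_right _ _).trans ((le_max_left _ _).trans hM1)
  have hNx : x₁ ≤ N := (Nat.le_ceil x₁).trans (by exact_mod_cast (le_max_right _ _).trans hM1)
  have hNN1 : N₁ ≤ N := (le_max_left _ _).trans hM2
  have hNm : max n₀ 3 ≤ N := (le_max_right _ _).trans hM2
  have hN3 : 3 ≤ N := (le_max_right _ _).trans hNm
  have hNn0 : n₀ ≤ N := (le_max_left _ _).trans hNm
  have hlog1 := hx₁ N hNx
  set i₀ : Fin k := ⟨0, hk⟩ with hi₀
  have hNH : N ≤ H := by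
    have h1 := hgH i₀
    have h2 := le_P (2 * N)
    omega
  have hNr : (3 : ℝ) ≤ N := by exact_mod_cast hN3
  have hHr : (N : ℝ) ≤ H := by exact_mod_cast hNH
  have hH0 : (0 : ℝ) < H := by linarith
  have hlogH1 : Real.log N ≤ Real.log H := Real.log_le_log (by linarith) hHr
  set L := Real.log H with hL
  have hL1 : 1 ≤ L := hlog1.trans hlogH1
  have hL0 : 0 < L := by linarith
  set g : Fin k → ℕ → ℕ := fun i n => P n + 2 * F i n with hg
  set I := Ico N (2 * N) with hI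
  have hcardI : #I = N := by rw [hI, Nat.card_Ico]; omega
  have hgI : ∀ i, ∀ n ∈ I, Odd (g i n) ∧ 2 ≤ g i n ∧ g i n ≤ H := by
    intro i n hn
    have hn1 := mem_Ico.1 hn
    have hP := P_odd (n := n) (by omega)
    have h1 : g i n < P (2 * N) + 2 * F i (2 * N) := g_lt (hmono i) (hNn0.trans hn1.1) hn1.2
    have h2 := hgH i
    refine ⟨?_, ?_, by omega⟩
    · exact hP.1.add_even (even_two_mul _)
    · show 2 ≤ P n + 2 * F i n
      omega
  set μ : ℝ := N / (2 * L) ^ k with hμ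
  have hμ0 : 0 < μ := by positivity
  have hcB : (#(Bx k H) : ℝ) = (H : ℝ) ^ k := by rw [card_Bx]; push_cast; rfl
  have hfirst : μ * #(Bx k H) ≤ ∑ b ∈ Bx k H, (cnt g b N : ℝ) := by
    rw [sum_cnt, hcB]
    have h1 : ∀ n ∈ I, ((H : ℝ) / (2 * L)) ^ k ≤ ∏ i, (#{u ∈ Icc 1 H | (g i n + 2 * u).Prime} : ℝ) := by
      intro n hn
      calc ((H : ℝ) / (2 * L)) ^ k = ∏ _i : Fin k, ((H : ℝ) / (2 * L)) := by rw [prod_const, card_fin]
        _ ≤ _ := prod_le_prod (fun _ _ => by positivity) (fun i _ => by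
            obtain ⟨q1, q2, q3⟩ := hgI i n hn
            exact hsing H (hNHs.trans hNH) (g i n) q1 q2 q3)
    have h2 := card_nsmul_le_sum _ _ _ h1
    rw [hcardI, nsmul_eq_mul] at h2
    refine le_trans (le_of_eq ?_) h2
    rw [hμ, div_pow]; ring
  have hsecond : ∑ b ∈ Bx k H, (cnt g b N : ℝ) ^ 2 ≤ K * μ ^ 2 * #(Bx k H) := by
    rw [sum_cnt_sq, hcB]
    set a : ℕ → ℕ → ℝ := fun m n => ∏ i, (#{u ∈ Icc 1 H | (g i m + 2 * u).Prime ∧ (g i n + 2 * u).Prime} : ℝ) with ha
    have ha0 : ∀ m n, 0 ≤ a m n := fun m n => prod_nonneg fun _ _ => Nat.cast_nonneg _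
    have hasymm : ∀ m n, a m n = a n m := by
      intro m n
      simp only [ha]
      apply prod_congr rfl; intro i _
      congr 2
      apply filter_congr; intro u _
      exact and_comm
    have hadiag : ∀ m, a m m ≤ (2 * Cs * H / L) ^ k := by
      intro m
      calc a m m ≤ ∏ _i : Fin k, (2 * Cs * H / L) := prod_le_prod (fun _ _ => Nat.cast_nonneg _) (fun i _ => by
              have h3 : #{u ∈ Icc 1 H | (g i m + 2 * u).Prime ∧ (g i m + 2 * u).Prime} ≤
                  #{u ∈ Icc 1 (2 * H) | (u + g i m).Prime} := by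
                apply card_le_card_of_injOn (fun u => 2 * u)
                · intro u hu
                  have hu0 := mem_filter.1 (mem_coe.1 hu)
                  have hu1 := mem_Icc.1 hu0.1
                  have hu2 : 2 * u ∈ (Icc 1 (2 * H)).filter (fun u => (u + g i m).Prime) := by
                    rw [mem_filter, mem_Icc]
                    refine ⟨⟨by omega, by omega⟩, ?_⟩
                    rw [add_comm]; exact hu0.2.1
                  exact hu2
                · intro x _ y _ hxy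
                  simpa using hxy
              have h4 : (#{u ∈ Icc 1 H | (g i m + 2 * u).Prime ∧ (g i m + 2 * u).Prime} : ℝ) ≤
                  #{u ∈ Icc 1 (2 * H) | (u + g i m).Prime} := by exact_mod_cast h3
              refine h4.trans ((hsgl (2 * H) (by omega) (g i m)).trans ?_)
              push_cast
              have h5 : L ≤ Real.log (2 * H) := Real.log_le_log hH0 (by linarith)
              calc Cs * (2 * H) / Real.log (2 * H) ≤ Cs * (2 * H) / L :=
                    div_le_div_of_nonneg_left (by positivity) (by positivity) h5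
                _ = _ := by ring)
        _ = _ := by rw [prod_const, card_fin]
    have hoff : ∀ m ∈ I, ∀ n ∈ I, m < n → a m n ≤ (2 * Cp * H / L ^ 2) ^ k * ∑ i, rat (g i n - g i m) ^ (Ap * k) := by
      intro m hm n hn hmn
      have hm1 := mem_Ico.1 hm
      have h1 : ∀ i, (#{u ∈ Icc 1 H | (g i m + 2 * u).Prime ∧ (g i n + 2 * u).Prime} : ℝ) ≤
          (2 * Cp * H / L ^ 2) * rat (g i n - g i m) ^ Ap := by
        intro i
        have hlt : g i m < g i n := g_lt (hmono i) (hNn0.trans hm1.1) hmn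
        have h2 := hpair (2 * H) (by omega) (g i n) (g i m) hlt
        have h3 : #{u ∈ Icc 1 H | (g i m + 2 * u).Prime ∧ (g i n + 2 * u).Prime} ≤
            #{u ∈ Icc 1 (2 * H) | (u + g i m).Prime ∧ (u + g i n).Prime} := by
          apply card_le_card_of_injOn (fun u => 2 * u)
          · intro u hu
            have hu0 := mem_filter.1 (mem_coe.1 hu)
            have hu1 := mem_Icc.1 hu0.1
            have hu2 : 2 * u ∈ (Icc 1 (2 * H)).filter (fun u => (u + g i m).Prime ∧ (u + g i n).Prime) := by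
              rw [mem_filter, mem_Icc]
              refine ⟨⟨by omega, by omega⟩, ?_, ?_⟩
              · rw [add_comm]; exact hu0.2.1
              · rw [add_comm]; exact hu0.2.2
            exact hu2
          · intro x _ y _ hxy
            simpa using hxy
        have h4 : (#{u ∈ Icc 1 H | (g i m + 2 * u).Prime ∧ (g i n + 2 * u).Prime} : ℝ) ≤
            #{u ∈ Icc 1 (2 * H) | (u + g i m).Prime ∧ (u + g i n).Prime} := by exact_mod_cast h3
        refine h4.trans (h2.trans ?_)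
        apply mul_le_mul_of_nonneg_right _ (pow_nonneg (rat_nonneg _) _)
        push_cast
        have h5 : L ≤ Real.log (2 * H) := Real.log_le_log hH0 (by linarith)
        have h6 : L ^ 2 ≤ Real.log (2 * H) ^ 2 := pow_le_pow_left₀ hL0.le h5 2
        calc Cp * (2 * H) / Real.log (2 * H) ^ 2 ≤ Cp * (2 * H) / L ^ 2 :=
              div_le_div_of_nonneg_left (by positivity) (by positivity) h6
          _ = _ := by ring
      calc a m n ≤ ∏ i, ((2 * Cp * H / L ^ 2) * rat (g i n - g i m) ^ Ap) :=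
            prod_le_prod (fun _ _ => Nat.cast_nonneg _) (fun i _ => h1 i)
        _ = (2 * Cp * H / L ^ 2) ^ k * ∏ i, rat (g i n - g i m) ^ Ap := by
            rw [prod_mul_distrib, prod_const, card_fin]
        _ ≤ (2 * Cp * H / L ^ 2) ^ k * ∑ i, (rat (g i n - g i m) ^ Ap) ^ k := by
            apply mul_le_mul_of_nonneg_left _ (by positivity)
            exact prod_le_sum_pow' hk _ (fun i => pow_nonneg (rat_nonneg _) _)
        _ = _ := by simp_rw [← pow_mul]
    have hsplit : ∑ m ∈ I, ∑ n ∈ I, a m n = ∑ m ∈ I, a m m + 2 * ∑ m ∈ I, ∑ n ∈ I with m < n, a m n := by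
      have h1 : ∀ m ∈ I, ∀ n ∈ I, a m n = (if m = n then a m m else 0) + ((if m < n then a m n else 0) +
          (if n < m then a n m else 0)) := by
        intro m _ n _
        rcases lt_trichotomy m n with h | h | h
        · simp [h, h.ne, h.not_gt]
        · subst h; simp
        · simp [h, h.ne', h.not_gt, hasymm m n]
      calc ∑ m ∈ I, ∑ n ∈ I, a m n = ∑ m ∈ I, ∑ n ∈ I, ((if m = n then a m m else 0) + ((if m < n then a m n else 0) +
          (if n < m then a n m else 0))) := sum_congr rfl fun m hm => sum_congr rfl fun n hn => h1 m hm n hn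
        _ = ∑ m ∈ I, ∑ n ∈ I, (if m = n then a m m else 0) + (∑ m ∈ I, ∑ n ∈ I, (if m < n then a m n else 0) +
          ∑ m ∈ I, ∑ n ∈ I, (if n < m then a n m else 0)) := by
            simp only [sum_add_distrib]
        _ = _ := by
            rw [sum_comm (f := fun m n => if n < m then a n m else 0)]
            simp only [sum_filter]
            have : ∑ m ∈ I, ∑ n ∈ I, (if m = n then a m m else 0) = ∑ m ∈ I, a m m := by
              apply sum_congr rfl; intro m hm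
              rw [sum_ite_eq, if_pos hm]
            rw [this]; ring
    rw [hsplit]
    have hd : ∑ m ∈ I, a m m ≤ 4 * (2 * Cs) ^ k * ((H : ℝ) ^ k * ((N : ℝ) ^ 2 / L ^ (2 * k))) := by
      calc ∑ m ∈ I, a m m ≤ ∑ _m ∈ I, (2 * Cs * H / L) ^ k := sum_le_sum fun m _ => hadiag m
        _ = (2 * Cs) ^ k * (H : ℝ) ^ k * (N / L ^ k) := by
            rw [sum_const, hcardI, nsmul_eq_mul, div_pow, mul_pow]; ring
        _ ≤ (2 * Cs) ^ k * (H : ℝ) ^ k * (4 * ((N : ℝ) ^ 2 / L ^ (2 * k))) := by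
            apply mul_le_mul_of_nonneg_left _ (by positivity)
            rw [← mul_div_assoc, div_le_div_iff₀ (by positivity) (by positivity), two_mul k, pow_add]
            calc (N : ℝ) * (L ^ k * L ^ k) = (L ^ k) * (N * L ^ k) := by ring
              _ ≤ (4 * N) * (N * L ^ k) := mul_le_mul_of_nonneg_right hHN (by positivity)
              _ = _ := by ring
        _ = _ := by ring
    have ho : ∑ m ∈ I, ∑ n ∈ I with m < n, a m n ≤ (2 * Cp * H / L ^ 2) ^ k * (CM * (N : ℝ) ^ 2) := by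
      calc ∑ m ∈ I, ∑ n ∈ I with m < n, a m n ≤
          ∑ m ∈ I, ∑ n ∈ I with m < n, (2 * Cp * H / L ^ 2) ^ k * ∑ i, rat (g i n - g i m) ^ (Ap * k) := by
            apply sum_le_sum; intro m hm
            apply sum_le_sum; intro n hn
            exact hoff m hm n (mem_filter.1 hn).1 (mem_filter.1 hn).2
        _ = (2 * Cp * H / L ^ 2) ^ k * ∑ i, ∑ m ∈ I, ∑ n ∈ I with m < n, rat (g i n - g i m) ^ (Ap * k) := by
            simp_rw [← mul_sum]
            congr 1
            calc ∑ m ∈ I, ∑ n ∈ I with m < n, ∑ i, rat (g i n - g i m) ^ (Ap * k) =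
                ∑ m ∈ I, ∑ i, ∑ n ∈ I with m < n, rat (g i n - g i m) ^ (Ap * k) :=
                  sum_congr rfl fun m _ => sum_comm
              _ = _ := sum_comm
        _ ≤ (2 * Cp * H / L ^ 2) ^ k * ∑ _i : Fin k, Cm * (N : ℝ) ^ 2 := by
            apply mul_le_mul_of_nonneg_left _ (by positivity)
            apply sum_le_sum; intro i _
            exact hmb (F i) (hper i) (hmono i) N hNN1 (hgA i)
        _ = _ := by rw [sum_const, card_univ, Fintype.card_fin, nsmul_eq_mul]; ring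
    have e1 : (2 * Cp * H / L ^ 2) ^ k = (2 * Cp) ^ k * (H : ℝ) ^ k / L ^ (2 * k) := by
      rw [div_pow, mul_pow, ← pow_mul]
    have e2 : K * μ ^ 2 * (H : ℝ) ^ k = K₂ * ((H : ℝ) ^ k * ((N : ℝ) ^ 2 / L ^ (2 * k))) := by
      rw [hK, hμ]
      have e3 : ((2 * L) ^ k) ^ 2 = 4 ^ k * L ^ (2 * k) := by
        rw [← pow_mul, mul_comm k 2, pow_mul, pow_mul, mul_pow, mul_pow]
        norm_num
      rw [div_pow, e3]
      field_simp
    rw [e2]
    rw [e1] at ho
    calc ∑ m ∈ I, a m m + 2 * ∑ m ∈ I, ∑ n ∈ I with m < n, a m n ≤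
        4 * (2 * Cs) ^ k * ((H : ℝ) ^ k * ((N : ℝ) ^ 2 / L ^ (2 * k))) +
          2 * ((2 * Cp) ^ k * (H : ℝ) ^ k / L ^ (2 * k) * (CM * (N : ℝ) ^ 2)) := by
          linarith
      _ = _ := by rw [hK₂]; ring
  have hPZ := PZ (Bx k H) (fun b => (cnt g b N : ℝ)) μ K hμ0 hK0 hfirst hsecond
  have hc1 : c ≤ 1 / (4 * K) := min_le_left _ _
  have hc2 : c ≤ 1 / (2 * 2 ^ k) := min_le_right _ _
  have hthr : c * (N / L ^ k) ≤ μ / 2 := by
    calc c * (N / L ^ k) ≤ 1 / (2 * 2 ^ k) * (N / L ^ k) :=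
          mul_le_mul_of_nonneg_right hc2 (by positivity)
      _ = μ / 2 := by
          rw [hμ, mul_pow]; field_simp
  calc c * (H : ℝ) ^ k ≤ 1 / (4 * K) * (H : ℝ) ^ k := mul_le_mul_of_nonneg_right hc1 (by positivity)
    _ = (#(Bx k H) : ℝ) / (4 * K) := by rw [hcB]; ring
    _ ≤ _ := hPZ
    _ ≤ _ := by
        apply Nat.cast_le.2
        apply card_le_card
        intro b hb
        rw [mem_filter] at hb ⊢
        exact ⟨hb.1, hthr.trans hb.2⟩

end Pool.Agent.H342R2.SP
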