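import Mathlib
import Pool.Agent.H342R2.SP.E

namespace Pool.Agent.H342R2.SP
open Finset Polynomial
open Pool.Agent.H646.ChebM (P_le P_strictMono le_P gap_sum)

/-- `Q` takes integer values at all integers -/
def IntVal (Q : ℚ[X]) : Prop := ∀ m : ℤ, ∃ k : ℤ, Q.eval (m : ℚ) = (k : ℚ)

lemma int_iter (j : ℕ) : ∀ f : ℚ → ℚ, (∀ m : ℤ, ∃ k : ℤ, f m = k) → ∀ m : ℤ, ∃ k : ℤ, ((fwdDiff (1 : ℚ))^[j] f) m = k := by
  induction j with
  | zero => intro f hf m; exact hf m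
  | succ j ih =>
    intro f hf
    rw [Function.iterate_succ]
    apply ih
    intro m
    obtain ⟨a, ha⟩ := hf (m + 1)
    obtain ⟨b, hb⟩ := hf m
    refine ⟨a - b, ?_⟩
    rw [fwdDiff]
    push_cast at ha ⊢
    rw [ha, hb]

lemma shift_int {Q : ℚ[X]} (hQ : IntVal Q) {d l : ℕ} (hd : Q.natDegree ≤ d) (hl : l.Prime) (hdl : d < l) (m : ℤ) :
    ∃ k : ℤ, Q.eval ((m : ℚ) + l) = Q.eval (m : ℚ) + l * k := by
  have h1 := shift_eq_sum_fwdDiff_iter (1 : ℚ) (fun x => Q.eval x) l (m : ℚ)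
  have h2 : ∀ j ∈ range l, ∃ a : ℤ, (l.choose (j + 1) : ℕ) • ((fwdDiff (1 : ℚ))^[j + 1] (fun x => Q.eval x)) (m : ℚ) = l * (a : ℚ) := by
    intro j hj
    rcases lt_or_ge d (j + 1) with h | h
    · have h3 := Polynomial.fwdDiff_iter_eq_zero_of_degree_lt (P := Q) (lt_of_le_of_lt hd h)
      have h4 : ((fwdDiff (1 : ℚ))^[j + 1] (fun x => Q.eval x)) = 0 := h3
      rw [h4]
      exact ⟨0, by simp⟩
    · obtain ⟨a, ha⟩ := int_iter (j + 1) (fun x => Q.eval x) hQ m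
      obtain ⟨c, hc⟩ := hl.dvd_choose_self (show j + 1 ≠ 0 by omega) (show j + 1 < l by omega)
      refine ⟨c * a, ?_⟩
      rw [ha, hc, nsmul_eq_mul]
      push_cast; ring
  choose! a ha using h2
  rw [sum_range_succ', sum_congr rfl ha] at h1
  refine ⟨∑ j ∈ range l, a j, ?_⟩
  simp only [nsmul_eq_mul, mul_one] at h1
  rw [h1]
  push_cast
  rw [mul_sum]
  simp
  ring

/-- integer values as natural numbers (with the index moved by one) -/
noncomputable def FF (Q : ℚ[X]) (m : ℕ) : ℕ := ⌊Q.eval ((m : ℚ) + 1)⌋.toNat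

lemma FF_cast {Q : ℚ[X]} (hQ : IntVal Q) {n₀ : ℕ} (hn : ∀ n : ℕ, n₀ ≤ n → 0 ≤ Q.eval (n : ℚ)) {m : ℕ} (hm : n₀ ≤ m) :
    ((FF Q m : ℕ) : ℚ) = Q.eval ((m : ℚ) + 1) := by
  obtain ⟨k, hk⟩ := hQ (m + 1)
  push_cast at hk
  have h0 := hn (m + 1) (by omega)
  push_cast at h0
  unfold FF
  rw [hk] at h0 ⊢
  rw [Int.floor_intCast]
  have : 0 ≤ k := by exact_mod_cast h0
  exact_mod_cast Int.toNat_of_nonneg this

lemma FF_per {Q : ℚ[X]} (hQ : IntVal Q) {d n₀ : ℕ} (hd : Q.natDegree ≤ d) (hn : ∀ n : ℕ, n₀ ≤ n → 0 ≤ Q.eval (n : ℚ)) :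
    Per (FF Q) d n₀ := by
  intro l hl hdl m hm
  obtain ⟨k, hk⟩ := shift_int hQ hd hl hdl (m + 1)
  have h1 := FF_cast hQ hn hm
  have h2 := FF_cast hQ hn (show n₀ ≤ m + l by omega)
  push_cast at hk h2
  rw [show (m : ℚ) + l + 1 = m + 1 + l by ring, hk, ← h1] at h2
  have h3 : ((FF Q (m + l) : ℕ) : ℤ) = FF Q m + l * k := by exact_mod_cast h2
  apply Nat.ModEq.symm
  rw [Nat.modEq_iff_dvd, h3]
  exact ⟨k, by ring⟩

lemma FF_mono {Q : ℚ[X]} {n₀ : ℕ} (hn : ∀ n : ℕ, n₀ ≤ n → Q.eval (n : ℚ) ≤ Q.eval ((n : ℚ) + 1)) (m : ℕ) (hm : n₀ ≤ m) :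
    FF Q m ≤ FF Q (m + 1) := by
  unfold FF
  apply Int.toNat_le_toNat
  apply Int.floor_le_floor
  have := hn (m + 1) (by omega)
  push_cast at this ⊢
  exact this

lemma ev_pos (p : ℝ[X]) (h : 0 < p.leadingCoeff) : ∀ᶠ x : ℝ in Filter.atTop, 0 < p.eval x := by
  rcases Nat.eq_zero_or_pos p.natDegree with h0 | h0
  · have h1 := eq_C_of_natDegree_eq_zero h0
    have h2 : 0 < p.coeff 0 := by rwa [leadingCoeff, h0] at h
    refine Filter.Eventually.of_forall fun x => ?_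
    rw [h1, eval_C]; exact h2
  · exact (p.tendsto_atTop_of_leadingCoeff_nonneg (natDegree_pos_iff_degree_pos.1 h0) h.le).eventually_gt_atTop 0

lemma ev_mono (p : ℝ[X]) (h : 0 < p.leadingCoeff) : ∃ x₀ : ℝ, MonotoneOn (fun x => p.eval x) (Set.Ici x₀) := by
  rcases Nat.eq_zero_or_pos p.natDegree with h0 | h0
  · refine ⟨0, fun x _ y _ _ => ?_⟩
    rw [eq_C_of_natDegree_eq_zero h0]
    simp
  · have h1 : 0 < p.derivative.leadingCoeff := by
      rw [leadingCoeff, natDegree_derivative p, coeff_derivative]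
      rw [show p.natDegree - 1 + 1 = p.natDegree by omega]
      exact mul_pos h (by positivity)
    obtain ⟨x₀, hx₀⟩ := Filter.eventually_atTop.1 (ev_pos _ h1)
    refine ⟨x₀, ?_⟩
    apply monotoneOn_of_deriv_nonneg (convex_Ici x₀) p.continuous.continuousOn p.differentiable.differentiableOn
    intro x hx
    rw [interior_Ici] at hx
    rw [Polynomial.deriv]
    exact (hx₀ x (le_of_lt hx)).le

lemma ev_Q (Q : ℚ[X]) (h : 0 < Q.leadingCoeff) : ∃ n₀ : ℕ, (∀ n : ℕ, n₀ ≤ n → 0 ≤ Q.eval (n : ℚ) ∧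
    Q.eval (n : ℚ) ≤ Q.eval ((n : ℚ) + 1)) ∧ ∀ n : ℕ, n₀ ≤ n → Q.eval (n : ℚ) ≤ (n : ℚ) ^ (Q.natDegree + 1) := by
  set p : ℝ[X] := Q.map (algebraMap ℚ ℝ) with hp
  have hcast : ∀ n : ℕ, p.eval (n : ℝ) = ((Q.eval (n : ℚ) : ℚ) : ℝ) := by
    intro n
    rw [hp, eval_natCast_map]
    rfl
  have hlc : 0 < p.leadingCoeff := by
    rw [hp, leadingCoeff_map]
    have : (0 : ℝ) < ((Q.leadingCoeff : ℚ) : ℝ) := by exact_mod_cast h
    exact this
  obtain ⟨x₀, hx₀⟩ := ev_mono p hlc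
  obtain ⟨x₁, hx₁⟩ := Filter.eventually_atTop.1 (ev_pos p hlc)
  have hdeg : p.degree < (X ^ (Q.natDegree + 1) : ℝ[X]).degree := by
    rw [degree_X_pow]
    refine lt_of_le_of_lt degree_le_natDegree ?_
    rw [hp, natDegree_map]
    exact_mod_cast Nat.lt_succ_self _
  have h3 := (div_tendsto_atTop_zero_of_degree_lt p _ hdeg).eventually_lt_const (show (0 : ℝ) < 1 by norm_num)
  obtain ⟨x₂, hx₂⟩ := Filter.eventually_atTop.1 (h3.and (Filter.eventually_gt_atTop (0 : ℝ)))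
  refine ⟨⌈max x₀ (max x₁ x₂)⌉₊, fun n hn => ?_, fun n hn => ?_⟩
  · have hn' : max x₀ (max x₁ x₂) ≤ n := (Nat.le_ceil _).trans (by exact_mod_cast hn)
    have e1 := hx₁ n ((le_max_left _ _).trans ((le_max_right _ _).trans hn'))
    have e0 : x₀ ≤ n := (le_max_left _ _).trans hn'
    have e2 := hx₀ (show (n : ℝ) ∈ Set.Ici x₀ from e0) (show ((n + 1 : ℕ) : ℝ) ∈ Set.Ici x₀ by
      rw [Set.mem_Ici]; push_cast; linarith) (by push_cast; linarith)
    simp only [hcast] at e2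
    rw [hcast] at e1
    refine ⟨by exact_mod_cast e1.le, ?_⟩
    have : Q.eval (n : ℚ) ≤ Q.eval ((n + 1 : ℕ) : ℚ) := by exact_mod_cast e2
    push_cast at this
    exact this
  · have hn' : max x₀ (max x₁ x₂) ≤ n := (Nat.le_ceil _).trans (by exact_mod_cast hn)
    have e1 := hx₂ n ((le_max_right _ _).trans ((le_max_right _ _).trans hn'))
    rw [eval_pow, eval_X, div_lt_one (pow_pos e1.2 _), hcast] at e1
    exact_mod_cast e1.1.le

end Pool.Agent.H342R2.SP
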